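import Mathlib

/-!
# Definitions for the 3-Sasakian Kirwan map (problem MP_9a67bd_gt)

* singular cohomology of a topological space with coefficients in a field `K`;
* the group `Sp(m)` of quaternionic unitary matrices acting on the unit sphere of `ℍ^m`;
* the Lie algebra of a subgroup, the 3-Sasakian moment map, its zero level `N`;
* the Borel construction and the (image of the) 3-Sasakian Kirwan map.
-/

open scoped Quaternion

noncomputable section

namespace Pool.Agent.Work.MP_9a67bd_gt

universe u v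

/-! ## Singular cohomology -/

section Singular

/-- A singular `k`-simplex of `X`: a continuous map from the standard `k`-simplex to `X`. -/
abbrev SingSimplex (k : ℕ) (X : Type u) [TopologicalSpace X] : Type u :=
  C(stdSimplex ℝ (Fin (k + 1)), X)

/-- The `i`-th face inclusion of the standard `k`-simplex in the standard `(k+1)`-simplex
(the affine map which misses the vertex `i`). -/
def faceIncl (k : ℕ) (i : Fin (k + 2)) :
    C(stdSimplex ℝ (Fin (k + 1)), stdSimplex ℝ (Fin (k + 2))) :=
  ⟨stdSimplex.map i.succAbove, stdSimplex.continuous_map _⟩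

variable (K : Type) [Field K]

/-- Singular `k`-cochains of `X` with coefficients in `K`. -/
abbrev Cochain (k : ℕ) (X : Type u) [TopologicalSpace X] : Type u :=
  SingSimplex k X → K

/-- The singular coboundary `(δ c)(σ) = ∑ i, (-1)^i c (σ ∘ d_i)`. -/
def coboundary (k : ℕ) (X : Type u) [TopologicalSpace X] :
    Cochain K k X →ₗ[K] Cochain K (k + 1) X where
  toFun c := fun σ => ∑ i : Fin (k + 2), (-1 : K) ^ (i : ℕ) * c (σ.comp (faceIncl k i))
  map_add' c c' := by
    funext σ
    simp only [Pi.add_apply, mul_add, Finset.sum_add_distrib]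
  map_smul' r c := by
    funext σ
    simp only [Pi.smul_apply, smul_eq_mul, RingHom.id_apply, Finset.mul_sum]
    refine Finset.sum_congr rfl fun i _ => by ring

/-- Singular cocycles. -/
def cocycles (k : ℕ) (X : Type u) [TopologicalSpace X] : Submodule K (Cochain K k X) :=
  LinearMap.ker (coboundary K k X)

/-- Singular coboundaries. -/
def coboundaries : (k : ℕ) → (X : Type u) → [TopologicalSpace X] → Submodule K (Cochain K k X)
  | 0, _, _ => ⊥
  | k + 1, X, _ => LinearMap.range (coboundary K k X)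

/-- Singular cohomology `H^k(X; K)`: cocycles modulo coboundaries. -/
abbrev Cohomology (k : ℕ) (X : Type u) [TopologicalSpace X] : Type u :=
  cocycles K k X ⧸ (coboundaries K k X).comap (cocycles K k X).subtype

variable {X : Type u} {Y : Type v} [TopologicalSpace X] [TopologicalSpace Y]

/-- The cochain map induced by a continuous map. -/
def Cochain.pull (k : ℕ) (f : C(X, Y)) : Cochain K k Y →ₗ[K] Cochain K k X where
  toFun c := fun σ => c (f.comp σ)
  map_add' _ _ := rfl
  map_smul' _ _ := rfl

theorem coboundary_pull (k : ℕ) (f : C(X, Y)) (c : Cochain K k Y) :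
    coboundary K k X (Cochain.pull K k f c) = Cochain.pull K (k + 1) f (coboundary K k Y c) := rfl

theorem pull_mem_cocycles (k : ℕ) (f : C(X, Y)) (c : Cochain K k Y) (hc : c ∈ cocycles K k Y) :
    Cochain.pull K k f c ∈ cocycles K k X := by
  have h : coboundary K k Y c = 0 := hc
  change coboundary K k X (Cochain.pull K k f c) = 0
  rw [coboundary_pull, h]
  rfl

theorem pull_mem_coboundaries (k : ℕ) (f : C(X, Y)) (c : Cochain K k Y)
    (hc : c ∈ coboundaries K k Y) : Cochain.pull K k f c ∈ coboundaries K k X := by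
  cases k with
  | zero =>
    have h : c = 0 := hc
    subst h
    exact Submodule.zero_mem _
  | succ k =>
    obtain ⟨b, rfl⟩ := hc
    exact ⟨Cochain.pull K k f b, rfl⟩

/-- The map induced by a continuous map on cocycles. -/
def cocyclesMap (k : ℕ) (f : C(X, Y)) : cocycles K k Y →ₗ[K] cocycles K k X :=
  (Cochain.pull K k f).restrict (pull_mem_cocycles K k f)

/-- The map `f^* : H^k(Y; K) → H^k(X; K)` induced by a continuous map `f : X → Y`. -/
def Cohomology.map (k : ℕ) (f : C(X, Y)) : Cohomology K k Y →ₗ[K] Cohomology K k X :=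
  Submodule.mapQ _ _ (cocyclesMap K k f) (fun c hc => pull_mem_coboundaries K k f c.1 hc)

end Singular

/-! ## Quaternionic geometry -/

/-- The compact symplectic group `Sp(m)`: quaternionic `m × m` matrices `A` with `A^* A = 1`. -/
abbrev Sp (m : ℕ) : Type := unitary (Matrix (Fin m) (Fin m) ℍ[ℝ])

/-- The unit sphere `S^{4m-1}` of `ℍ^m`. -/
abbrev QSphere (m : ℕ) : Type := {x : Fin m → ℍ[ℝ] // ∑ a, ‖x a‖ ^ 2 = 1}

theorem sum_norm_sq_eq {m : ℕ} (x : Fin m → ℍ[ℝ]) :
    ((∑ a, ‖x a‖ ^ 2 : ℝ) : ℍ[ℝ]) = star x ⬝ᵥ x := by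
  simp only [dotProduct, Pi.star_apply]
  change algebraMap ℝ ℍ[ℝ] (∑ a, ‖x a‖ ^ 2) = _
  rw [map_sum]
  refine Finset.sum_congr rfl fun a _ => ?_
  rw [Quaternion.star_mul_self, Quaternion.normSq_eq_norm_mul_self, sq]
  rfl

theorem sp_norm {m : ℕ} (A : Sp m) (x : Fin m → ℍ[ℝ]) :
    ∑ a, ‖(A.1.mulVec x) a‖ ^ 2 = ∑ a, ‖x a‖ ^ 2 := by
  have h : ((∑ a, ‖(A.1.mulVec x) a‖ ^ 2 : ℝ) : ℍ[ℝ]) = ((∑ a, ‖x a‖ ^ 2 : ℝ) : ℍ[ℝ]) := by
    rw [sum_norm_sq_eq, sum_norm_sq_eq, Matrix.star_mulVec, Matrix.dotProduct_mulVec,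
      Matrix.vecMul_vecMul]
    have h1 : A.1.conjTranspose * A.1 = 1 := Unitary.coe_star_mul_self A
    rw [h1, Matrix.vecMul_one]
  exact Quaternion.coe_injective h

/-- `Sp(m)` acts on the unit sphere of `ℍ^m` by left matrix multiplication. -/
instance spAction (m : ℕ) : MulAction (Sp m) (QSphere m) where
  smul A x := ⟨A.1.mulVec x.1, by rw [sp_norm]; exact x.2⟩
  one_smul x := Subtype.ext (Matrix.one_mulVec x.1)
  mul_smul A B x := Subtype.ext (Matrix.mulVec_mulVec x.1 A.1 B.1).symm

/-- The Lie algebra of a (closed) subgroup `G` of `Sp(m)`: the real span of the matrices `ξ` with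
`exp (t ξ) ∈ G` for all real `t` (for closed `G` the set of these matrices is its own span). -/
def lieAlg {m : ℕ} (G : Subgroup (Sp m)) : Submodule ℝ (Matrix (Fin m) (Fin m) ℍ[ℝ]) :=
  Submodule.span ℝ {ξ | ∀ t : ℝ, ∃ g ∈ G, NormedSpace.exp (t • ξ) = (g : Sp m).1}

/-- The hyperKähler moment map `⟨μ(x), ξ⟩ = (1/2) x^* ξ x` of `ℍ^m`. -/
def moment {m : ℕ} (x : Fin m → ℍ[ℝ]) (ξ : Matrix (Fin m) (Fin m) ℍ[ℝ]) : ℍ[ℝ] :=
  (1 / 2 : ℝ) • (star x ⬝ᵥ ξ.mulVec x)

/-- The zero level `N = μ⁻¹(0) ∩ S^{4m-1}` of the 3-Sasakian moment map of `G`. -/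
abbrev ZeroLevel {m : ℕ} (G : Subgroup (Sp m)) : Type :=
  {x : QSphere m // ∀ ξ ∈ lieAlg G, moment x.1 ξ = 0}

/-- Two points of `N` are equivalent when they lie in the same `G`-orbit. -/
instance zeroLevelSetoid {m : ℕ} (G : Subgroup (Sp m)) : Setoid (ZeroLevel G) :=
  (MulAction.orbitRel G (QSphere m)).comap Subtype.val

/-- The 3-Sasakian reduction `S^{4m-1} /// G = N / G` with the quotient topology. -/
abbrev Reduction {m : ℕ} (G : Subgroup (Sp m)) : Type := Quotient (zeroLevelSetoid G)

/-! ## The Borel construction and the Kirwan map -/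

section Borel

variable {m : ℕ} (G : Subgroup (Sp m)) (E : Type u) [TopologicalSpace E] [MulAction G E]

/-- `E ×_G S^{4m-1}`: the quotient of `E × S^{4m-1}` by the diagonal action of `G`. -/
abbrev BorelSphere : Type u := Quotient (MulAction.orbitRel G (E × QSphere m))

/-- Two points of `E × N` are equivalent when they lie in the same orbit of the diagonal action. -/
instance borelZeroSetoid : Setoid (E × ZeroLevel G) :=
  (MulAction.orbitRel G (E × QSphere m)).comap (Prod.map id Subtype.val)

/-- `E ×_G N`: the quotient of `E × N` by the diagonal action of `G`. -/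
abbrev BorelZero : Type u := Quotient (borelZeroSetoid G E)

/-- The inclusion `E ×_G N → E ×_G S^{4m-1}`. -/
def borelIncl : C(BorelZero G E, BorelSphere G E) :=
  ⟨Quotient.map (Prod.map id Subtype.val) (fun _ _ h => h),
    (continuous_id.prodMap continuous_subtype_val).quotient_map' (fun _ _ h => h)⟩

/-- The projection `E ×_G N → N / G`. -/
def borelProj : C(BorelZero G E, Reduction G) :=
  ⟨Quotient.map Prod.snd (fun _ _ h => by
      obtain ⟨g, hg⟩ := h
      exact ⟨g, congrArg Prod.snd hg⟩),
    continuous_snd.quotient_map' (fun _ _ h => by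
      obtain ⟨g, hg⟩ := h
      exact ⟨g, congrArg Prod.snd hg⟩)⟩

/-- The 3-Sasakian Kirwan map computed with the `G`-space `E` (a model of `EG`) is onto in
degree `k`: for every class `c ∈ H^k(N/G; K)` there is a class `a ∈ H^k(E ×_G S; K)` whose
restriction to `E ×_G N` is the pull-back of `c`. -/
def KirwanOnto (K : Type) [Field K] (k : ℕ) : Prop :=
  ∀ c : Cohomology K k (Reduction G), ∃ a : Cohomology K k (BorelSphere G E),
    Cohomology.map K k (borelIncl G E) a = Cohomology.map K k (borelProj G E) c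

end Borel

end Pool.Agent.Work.MP_9a67bd_gt
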