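import Mathlib

/-!
# Lifting along contractions of the simplex
-/

noncomputable section

namespace Pool.Agent.Work.MP_9a67bd_gt

open scoped unitInterval

/-- propagation along the unit interval, uniformly in a compact parameter space. -/
theorem propagate {K : Type*} [PseudoMetricSpace K] [CompactSpace K] (L : I → Prop)
    (g : I × I × K → ℝ) (hg : Continuous g) (hdiag : ∀ s t, 0 < g (s, s, t))
    (hstep : ∀ s s', (∀ t, 0 < g (s, s', t)) → L s → L s') (h0 : L 0) : L 1 := by
  classical
  -- the diagonal is compact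
  let D : Set (I × I × K) := Set.range fun p : I × K => (p.1, p.1, p.2)
  have hD : IsCompact D := isCompact_range (by fun_prop)
  let U : Set (I × I × K) := {q | 0 < g q}
  have hU : IsOpen U := isOpen_lt continuous_const hg
  have hDU : D ⊆ U := by
    rintro _ ⟨p, rfl⟩
    exact hdiag p.1 p.2
  obtain ⟨δ, hδ, hsub⟩ := hD.exists_thickening_subset_open hU hDU
  have hnear : ∀ s s' : I, dist s s' < δ → L s → L s' := by
    intro s s' hd hs
    refine hstep s s' (fun t => ?_) hs
    have : (s, s', t) ∈ Metric.thickening δ D := by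
      rw [Metric.mem_thickening_iff]
      refine ⟨(s, s, t), ⟨(s, t), rfl⟩, ?_⟩
      simp only [Prod.dist_eq, dist_self]
      rw [dist_comm] at hd
      simp [hd]
    exact hsub this
  have key : ∀ n : ℕ, ∀ s : I, (s : ℝ) ≤ n * (δ / 2) → L s := by
    intro n
    induction n with
    | zero =>
      intro s hs
      have : s = 0 := by
        apply Subtype.ext
        have h1 := s.2.1
        simp at hs
        exact le_antisymm (by simpa using hs) h1
      rw [this]; exact h0
    | succ n ih =>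
      intro s hs
      by_cases h : (s : ℝ) ≤ δ / 2
      · refine hnear 0 s ?_ h0
        rw [Subtype.dist_eq, Real.dist_eq]
        have h1 := s.2.1
        rw [abs_lt]
        constructor <;> simp <;> linarith
      · push Not at h
        have h1 := s.2.2
        let s' : I := ⟨s - δ / 2, by constructor <;> linarith⟩
        have h2 : (s' : ℝ) = s - δ / 2 := rfl
        refine hnear s' s ?_ (ih s' ?_)
        · rw [Subtype.dist_eq, Real.dist_eq, h2, abs_lt]
          constructor <;> linarith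
        · rw [h2]
          push_cast at hs
          linarith
  obtain ⟨n, hn⟩ := exists_nat_gt (1 / (δ / 2))
  refine key n 1 ?_
  have : (0:ℝ) < δ / 2 := by linarith
  rw [div_lt_iff₀ this] at hn
  simpa using hn.le

/-- The straight-line contraction of the standard simplex to its vertex `0`. -/
def contr (k : ℕ) : C(I × stdSimplex ℝ (Fin (k + 1)), stdSimplex ℝ (Fin (k + 1))) :=
  ⟨fun p => ⟨(1 - (p.1 : ℝ)) • (Pi.single 0 1 : Fin (k + 1) → ℝ) + (p.1 : ℝ) • (p.2 : Fin (k + 1) → ℝ),
    convex_stdSimplex ℝ (Fin (k + 1)) (single_mem_stdSimplex ℝ 0) p.2.2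
      (by linarith [p.1.2.2]) p.1.2.1 (by ring)⟩,
    Continuous.subtype_mk (by fun_prop) _⟩

theorem contr_zero (k : ℕ) (t : stdSimplex ℝ (Fin (k + 1))) :
    contr k (0, t) = stdSimplex.vertex 0 := by
  apply Subtype.ext
  simp [contr]

theorem contr_one (k : ℕ) (t : stdSimplex ℝ (Fin (k + 1))) : contr k (1, t) = t := by
  apply Subtype.ext
  funext i
  simp [contr]
  rfl

/-- continuous logarithm on the simplex. -/
theorem exists_angle (k : ℕ) (u : C(stdSimplex ℝ (Fin (k + 1)), ℂ)) (hu : ∀ t, ‖u t‖ = 1) :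
    ∃ θ : C(stdSimplex ℝ (Fin (k + 1)), ℝ), ∀ t, u t = Complex.exp (θ t * Complex.I) := by
  let F : I × stdSimplex ℝ (Fin (k + 1)) → ℂ := fun p => u (contr k p)
  have hF : Continuous F := by fun_prop
  have hFn : ∀ p, ‖F p‖ = 1 := fun p => hu _
  have hmul : ∀ p, F p * star (F p) = 1 := by
    intro p
    have := Complex.mul_conj (F p)
    rw [Complex.normSq_eq_norm_sq, hFn p] at this
    simpa using this
  have key := propagate (K := stdSimplex ℝ (Fin (k + 1)))
    (fun s => ∃ θ : C(stdSimplex ℝ (Fin (k + 1)), ℝ), ∀ t, F (s, t) = Complex.exp (θ t * Complex.I))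
    (fun q => (F (q.2.1, q.2.2) * star (F (q.1, q.2.2))).re) (by fun_prop)
    (by
      intro s t
      simp only [hmul]
      norm_num) ?_ ?_
  · obtain ⟨θ, hθ⟩ := key
    refine ⟨θ, fun t => ?_⟩
    rw [← hθ t]
    simp only [F, contr_one]
  · rintro s s' hpos ⟨θ, hθ⟩
    have hcont : Continuous fun t : stdSimplex ℝ (Fin (k + 1)) =>
        Complex.arg (F (s', t) * star (F (s, t))) := by
      rw [continuous_iff_continuousAt]
      intro t
      have h1 : ContinuousAt Complex.arg (F (s', t) * star (F (s, t))) :=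
        Complex.continuousAt_arg (Or.inl (hpos t))
      have h2 : Continuous fun t : stdSimplex ℝ (Fin (k + 1)) => F (s', t) * star (F (s, t)) := by
        fun_prop
      exact ContinuousAt.comp (f := fun t : stdSimplex ℝ (Fin (k + 1)) => F (s', t) * star (F (s, t)))
        h1 h2.continuousAt
    refine ⟨⟨fun t => θ t + Complex.arg (F (s', t) * star (F (s, t))), by fun_prop⟩, fun t => ?_⟩
    have h1 : Complex.exp (Complex.arg (F (s', t) * star (F (s, t))) * Complex.I)
        = F (s', t) * star (F (s, t)) := by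
      have h := Complex.norm_mul_exp_arg_mul_I (F (s', t) * star (F (s, t)))
      rw [norm_mul, norm_star, hFn, hFn] at h
      simpa using h
    simp only [ContinuousMap.coe_mk, Complex.ofReal_add, add_mul, Complex.exp_add]
    rw [h1, ← hθ t]
    have := hmul (s, t)
    calc F (s', t) = F (s', t) * 1 := by ring
      _ = F (s', t) * (F (s, t) * star (F (s, t))) := by rw [this]
      _ = _ := by ring
  · refine ⟨ContinuousMap.const _ (Complex.arg (F (0, stdSimplex.vertex 0))), fun t => ?_⟩
    have h1 : F (0, t) = F (0, stdSimplex.vertex 0) := by simp only [F, contr_zero]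
    rw [h1]
    have h := Complex.norm_mul_exp_arg_mul_I (F (0, stdSimplex.vertex 0))
    rw [hFn] at h
    simp only [ContinuousMap.const_apply]
    simpa using h.symm

/-! ## Rank one projectors -/

/-- `w` is a unit vector spanning the range of the projector `p`. -/
def IsLift {m : ℕ} (w : Fin m → ℂ) (p : Matrix (Fin m) (Fin m) ℂ) : Prop :=
  star w ⬝ᵥ w = 1 ∧ p = Matrix.vecMulVec w (star w)

/-- Rank one Hermitian projectors of `ℂ^m`: the points of the complex projective space. -/
abbrev CLine (m : ℕ) : Type := {p : Matrix (Fin m) (Fin m) ℂ // ∃ w : Fin m → ℂ, IsLift w p}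

theorem star_dot {m : ℕ} (w w' : Fin m → ℂ) : star (star w ⬝ᵥ w') = star w' ⬝ᵥ w := by
  rw [← Matrix.star_dotProduct_star, star_star, dotProduct_comm]

theorem norm_sq_dot {m : ℕ} (w w' : Fin m → ℂ) :
    ((Complex.normSq (star w ⬝ᵥ w') : ℝ) : ℂ) = (star w ⬝ᵥ w') * (star w' ⬝ᵥ w) := by
  rw [← star_dot w w', ← Complex.mul_conj]
  rfl

theorem vecMulVec_mulVec' {m : ℕ} (w v x : Fin m → ℂ) :
    (Matrix.vecMulVec w v).mulVec x = (v ⬝ᵥ x) • w := by
  funext i
  simp only [Matrix.mulVec, Matrix.vecMulVec_apply, dotProduct, Pi.smul_apply, smul_eq_mul,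
    Finset.sum_mul]
  refine Finset.sum_congr rfl fun j _ => by ring

theorem IsLift.unique {m : ℕ} {w w' : Fin m → ℂ} {p : Matrix (Fin m) (Fin m) ℂ}
    (h : IsLift w p) (h' : IsLift w' p) :
    w' = (star w ⬝ᵥ w') • w ∧ ‖star w ⬝ᵥ w'‖ = 1 := by
  have e1 : w' = (star w ⬝ᵥ w') • w := by
    have a1 : p.mulVec w' = (star w ⬝ᵥ w') • w := by rw [h.2, vecMulVec_mulVec']
    have a2 : p.mulVec w' = w' := by rw [h'.2, vecMulVec_mulVec', h'.1, one_smul]
    rw [← a1, a2]
  refine ⟨e1, ?_⟩
  have e2 : (star w' ⬝ᵥ w') = (star w ⬝ᵥ w') * (star w' ⬝ᵥ w) := by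
    conv_lhs => rw [show star w' ⬝ᵥ w' = star w' ⬝ᵥ ((star w ⬝ᵥ w') • w) by rw [← e1]]
    rw [dotProduct_smul, smul_eq_mul]
  rw [h'.1, ← norm_sq_dot] at e2
  have e3 : Complex.normSq (star w ⬝ᵥ w') = 1 := by exact_mod_cast e2.symm
  rw [Complex.normSq_eq_norm_sq] at e3
  have := norm_nonneg (star w ⬝ᵥ w')
  nlinarith

theorem trace_mul_lift {m : ℕ} {w w' : Fin m → ℂ} {p p' : Matrix (Fin m) (Fin m) ℂ}
    (h : IsLift w p) (h' : IsLift w' p') :
    (p * p').trace = ((Complex.normSq (star w ⬝ᵥ w') : ℝ) : ℂ) := by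
  rw [h.2, h'.2, norm_sq_dot, Matrix.vecMulVec_mul_vecMulVec, Matrix.trace_vecMulVec]
  rw [dotProduct_smul, smul_eq_mul, dotProduct_comm w]

theorem IsLift.smul {m : ℕ} {w : Fin m → ℂ} {p : Matrix (Fin m) (Fin m) ℂ}
    (h : IsLift w p) (u : ℂ) (hu : ‖u‖ = 1) : IsLift (u • w) p := by
  have hu' : u * star u = 1 := by
    have := Complex.mul_conj u
    rw [Complex.normSq_eq_norm_sq, hu] at this
    simpa using this
  have hu'' : star u * u = 1 := by rw [mul_comm]; exact hu'
  refine ⟨?_, ?_⟩
  · rw [star_smul, smul_dotProduct, dotProduct_smul, h.1, smul_eq_mul, smul_eq_mul, mul_one, hu'']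
  · rw [h.2, star_smul, Matrix.smul_vecMulVec, Matrix.vecMulVec_smul, smul_smul, hu', one_smul]

/-- Every family of rank one projectors on the simplex has a continuous unit section. -/
theorem exists_lift (k m : ℕ) (τ : C(stdSimplex ℝ (Fin (k + 1)), CLine m)) :
    ∃ w : C(stdSimplex ℝ (Fin (k + 1)), Fin m → ℂ), ∀ t, IsLift (w t) (τ t).1 := by
  let F : I × stdSimplex ℝ (Fin (k + 1)) → Matrix (Fin m) (Fin m) ℂ := fun p => (τ (contr k p)).1
  have hF : Continuous F := by fun_prop
  have hFl : ∀ p, ∃ w : Fin m → ℂ, IsLift w (F p) := fun p => (τ (contr k p)).2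
  have key := propagate (K := stdSimplex ℝ (Fin (k + 1)))
    (fun s => ∃ w : C(stdSimplex ℝ (Fin (k + 1)), Fin m → ℂ), ∀ t, IsLift (w t) (F (s, t)))
    (fun q => ((F (q.1, q.2.2) * F (q.2.1, q.2.2)).trace).re)
    (by
      have h1 : Continuous fun q : I × I × stdSimplex ℝ (Fin (k + 1)) => F (q.1, q.2.2) :=
        hF.comp (by fun_prop)
      have h2 : Continuous fun q : I × I × stdSimplex ℝ (Fin (k + 1)) => F (q.2.1, q.2.2) :=
        hF.comp (by fun_prop)
      exact Complex.continuous_re.comp (Continuous.matrix_trace (h1.matrix_mul h2)))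
    (by
      intro s t
      obtain ⟨w, hw⟩ := hFl (s, t)
      simp only
      rw [trace_mul_lift hw hw, hw.1]
      norm_num) ?_ ?_
  · obtain ⟨w, hw⟩ := key
    refine ⟨w, fun t => ?_⟩
    have := hw t
    simpa only [F, contr_one] using this
  · rintro s s' hpos ⟨w, hw⟩
    let g : stdSimplex ℝ (Fin (k + 1)) → ℝ := fun t => ((F (s, t) * F (s', t)).trace).re
    have hg : Continuous g := by
      have h1 : Continuous fun t : stdSimplex ℝ (Fin (k + 1)) => F (s, t) := hF.comp (by fun_prop)
      have h2 : Continuous fun t : stdSimplex ℝ (Fin (k + 1)) => F (s', t) := hF.comp (by fun_prop)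
      exact Complex.continuous_re.comp (Continuous.matrix_trace (h1.matrix_mul h2))
    have hgpos : ∀ t, 0 < g t := hpos
    have hcont : Continuous fun t : stdSimplex ℝ (Fin (k + 1)) =>
        (((Real.sqrt (g t))⁻¹ : ℝ) : ℂ) • ((F (s', t)).mulVec (w t)) := by
      have h2 : Continuous fun t : stdSimplex ℝ (Fin (k + 1)) => F (s', t) := hF.comp (by fun_prop)
      have h3 : Continuous fun t : stdSimplex ℝ (Fin (k + 1)) =>
          (((Real.sqrt (g t))⁻¹ : ℝ) : ℂ) := by
        refine Complex.continuous_ofReal.comp (Continuous.inv₀ (Real.continuous_sqrt.comp hg) ?_)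
        intro t
        exact (Real.sqrt_pos.2 (hgpos t)).ne'
      exact h3.smul (h2.matrix_mulVec w.continuous)
    refine ⟨⟨_, hcont⟩, fun t => ?_⟩
    obtain ⟨w0, hw0⟩ := hFl (s', t)
    have htr := trace_mul_lift (hw t) hw0
    have hgt : g t = Complex.normSq (star (w t) ⬝ᵥ w0) := by
      simp only [g, htr, Complex.ofReal_re]
    have e1 : (F (s', t)).mulVec (w t) = (star w0 ⬝ᵥ w t) • w0 := by
      rw [hw0.2, vecMulVec_mulVec']
    simp only [ContinuousMap.coe_mk]
    rw [e1, smul_smul]
    apply hw0.smul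
    rw [norm_mul, Complex.norm_real, norm_inv, Real.norm_eq_abs, abs_of_pos (Real.sqrt_pos.2 (hgpos t))]
    have h3 : ‖star w0 ⬝ᵥ w t‖ = Real.sqrt (g t) := by
      rw [hgt, ← star_dot (w t) w0, norm_star, Complex.normSq_eq_norm_sq, Real.sqrt_sq (norm_nonneg _)]
    rw [h3]
    exact inv_mul_cancel₀ (Real.sqrt_pos.2 (hgpos t)).ne'
  · obtain ⟨w, hw⟩ := hFl (0, stdSimplex.vertex 0)
    refine ⟨ContinuousMap.const _ w, fun t => ?_⟩
    have h1 : F (0, t) = F (0, stdSimplex.vertex 0) := by simp only [F, contr_zero]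
    rw [h1]
    exact hw

end Pool.Agent.Work.MP_9a67bd_gt
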