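import Mathlib
import Pool.Agent.Work.MP_9a67bd_gt.Defs
import Pool.Agent.Work.MP_9a67bd_gt.Lift

/-!
# An integral singular 2-cocycle on the space of rank one projectors
-/

noncomputable section

namespace Pool.Agent.Work.MP_9a67bd_gt

open Complex

/-- the simplicial map as a continuous map -/
def smap {a b : ℕ} (f : Fin a → Fin b) : C(stdSimplex ℝ (Fin a), stdSimplex ℝ (Fin b)) :=
  ⟨stdSimplex.map f, stdSimplex.continuous_map f⟩

theorem smap_comp {a b c : ℕ} (g : Fin b → Fin c) (f : Fin a → Fin b) :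
    (smap g).comp (smap f) = smap (g ∘ f) := by
  ext t : 1
  exact stdSimplex.map_comp_apply f g t

theorem faceIncl_eq (k : ℕ) (i : Fin (k + 2)) : faceIncl k i = smap i.succAbove := rfl

theorem smap_vertex {a b : ℕ} (f : Fin a → Fin b) (i : Fin a) :
    smap f (stdSimplex.vertex i) = stdSimplex.vertex (f i) :=
  stdSimplex.map_vertex f i

/-- unit complex number of given angle -/
abbrev E (θ : ℝ) : ℂ := exp (θ * I)

theorem E_add (a b : ℝ) : E (a + b) = E a * E b := by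
  simp only [E, ofReal_add, add_mul, exp_add]

theorem norm_E (a : ℝ) : ‖E a‖ = 1 := norm_exp_ofReal_mul_I a

theorem E_ne_zero (a : ℝ) : E a ≠ 0 := exp_ne_zero _

theorem E_eq_iff (a b : ℝ) : E a = E b ↔ ∃ n : ℤ, a = b + 2 * Real.pi * n := by
  rw [exp_eq_exp_iff_exists_int]
  constructor
  · rintro ⟨n, hn⟩
    refine ⟨n, ?_⟩
    have h : (a : ℂ) * I = ((b + 2 * Real.pi * n : ℝ) : ℂ) * I := by
      rw [hn]; push_cast; ring
    have := mul_right_cancel₀ I_ne_zero h
    exact_mod_cast this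
  · rintro ⟨n, hn⟩
    refine ⟨n, ?_⟩
    rw [hn]; push_cast; ring

theorem const_of_E_eq_one {k : ℕ} (f : C(stdSimplex ℝ (Fin (k + 1)), ℝ)) (hf : ∀ t, E (f t) = 1)
    (s t : stdSimplex ℝ (Fin (k + 1))) : f s = f t := by
  have h : ∀ t, ∃ n : ℤ, f t = 2 * Real.pi * n := by
    intro t
    have h1 : E (f t) = E 0 := by rw [hf t]; simp [E]
    obtain ⟨n, hn⟩ := (E_eq_iff _ _).1 h1
    exact ⟨n, by rw [hn]; ring⟩
  choose n hn using h
  have hcont : Continuous n := by
    rw [Int.isClosedEmbedding_coe_real.isInducing.continuous_iff]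
    have : (Int.cast ∘ n : _ → ℝ) = fun t => f t / (2 * Real.pi) := by
      funext t
      simp only [Function.comp]
      rw [hn t]
      field_simp
    rw [this]
    fun_prop
  have hc : n s = n t := PreconnectedSpace.constant inferInstance hcont
  rw [hn s, hn t, hc]

theorem IsLift.ne_zero {m : ℕ} {w : Fin m → ℂ} {p : Matrix (Fin m) (Fin m) ℂ} (h : IsLift w p) :
    w ≠ 0 := by
  rintro rfl
  have := h.1
  simp at this

theorem smul_right_inj_of_lift {m : ℕ} {w : Fin m → ℂ} {p : Matrix (Fin m) (Fin m) ℂ}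
    (h : IsLift w p) {a b : ℂ} (hab : a • w = b • w) : a = b :=
  smul_left_injective ℂ h.ne_zero hab

/-- two continuous lifts differ by a continuous angle. -/
theorem exists_angle_of_lifts {k m : ℕ} (τ : stdSimplex ℝ (Fin (k + 1)) → CLine m)
    (w w' : C(stdSimplex ℝ (Fin (k + 1)), Fin m → ℂ)) (h : ∀ t, IsLift (w t) (τ t).1)
    (h' : ∀ t, IsLift (w' t) (τ t).1) :
    ∃ θ : C(stdSimplex ℝ (Fin (k + 1)), ℝ), ∀ t, w' t = E (θ t) • w t := by
  have hc : Continuous fun t => star (w t) ⬝ᵥ w' t := by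
    have h1 : Continuous fun t => star (w t) := continuous_star.comp w.continuous
    exact Continuous.dotProduct h1 w'.continuous
  obtain ⟨θ, hθ⟩ := exists_angle k ⟨_, hc⟩ (fun t => ((h t).unique (h' t)).2)
  refine ⟨θ, fun t => ?_⟩
  have := hθ t
  simp only [ContinuousMap.coe_mk] at this
  rw [E, ← this]
  exact ((h t).unique (h' t)).1

variable {m : ℕ}

/-- a chosen unit vector on each line -/
def base (p : CLine m) : Fin m → ℂ := p.2.choose

theorem base_lift (p : CLine m) : IsLift (base p) p.1 := p.2.choose_spec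

/-- the vertices of the simplex -/
abbrev vtx {k : ℕ} (i : Fin (k + 1)) : stdSimplex ℝ (Fin (k + 1)) := stdSimplex.vertex i

theorem exists_edgeLift (τ : SingSimplex 1 (CLine m)) :
    ∃ w : C(stdSimplex ℝ (Fin (1 + 1)), Fin m → ℂ), (∀ t, IsLift (w t) (τ t).1) ∧
      ∀ l : Fin 2, w (vtx l) = base (τ (vtx l)) := by
  obtain ⟨w, hw⟩ := exists_lift 1 m τ
  have h : ∀ l : Fin 2, ∃ θ : ℝ, base (τ (vtx l)) = E θ • w (vtx l) := by
    intro l
    obtain ⟨h1, h2⟩ := (hw (vtx l)).unique (base_lift (τ (vtx l)))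
    refine ⟨arg (star (w (vtx l)) ⬝ᵥ base (τ (vtx l))), ?_⟩
    have h3 := norm_mul_exp_arg_mul_I (star (w (vtx l)) ⬝ᵥ base (τ (vtx l)))
    rw [h2] at h3
    rw [E]
    simp only [ofReal_one, one_mul] at h3
    rw [h3]
    exact h1
  choose θ hθ using h
  have hc : Continuous fun t : stdSimplex ℝ (Fin (1 + 1)) =>
      E (t 0 * θ 0 + t 1 * θ 1) • w t := by
    have h0 : Continuous fun t : stdSimplex ℝ (Fin (1 + 1)) => t 0 :=
      (continuous_apply 0).comp continuous_subtype_val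
    have h1 : Continuous fun t : stdSimplex ℝ (Fin (1 + 1)) => t 1 :=
      (continuous_apply 1).comp continuous_subtype_val
    have h2 : Continuous fun t : stdSimplex ℝ (Fin (1 + 1)) => E (t 0 * θ 0 + t 1 * θ 1) := by
      exact Complex.continuous_exp.comp ((Complex.continuous_ofReal.comp
        ((h0.mul continuous_const).add (h1.mul continuous_const))).mul continuous_const)
    exact h2.smul w.continuous
  refine ⟨⟨_, hc⟩, fun t => (hw t).smul _ (norm_E _), fun l => ?_⟩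
  simp only [ContinuousMap.coe_mk]
  rw [hθ l]
  congr 2
  fin_cases l <;> simp

/-- the chosen lift of an edge, with prescribed end points -/
def edgeLift (τ : SingSimplex 1 (CLine m)) : C(stdSimplex ℝ (Fin (1 + 1)), Fin m → ℂ) :=
  (exists_edgeLift τ).choose

theorem edgeLift_lift (τ : SingSimplex 1 (CLine m)) (t) : IsLift (edgeLift τ t) (τ t).1 :=
  (exists_edgeLift τ).choose_spec.1 t

theorem edgeLift_vtx (τ : SingSimplex 1 (CLine m)) (l : Fin 2) :
    edgeLift τ (vtx l) = base (τ (vtx l)) :=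
  (exists_edgeLift τ).choose_spec.2 l

/-- compatible data on a 2-simplex -/
def Compat (σ : SingSimplex 2 (CLine m)) (w : C(stdSimplex ℝ (Fin (2 + 1)), Fin m → ℂ))
    (θ : Fin 3 → C(stdSimplex ℝ (Fin (1 + 1)), ℝ)) : Prop :=
  (∀ t, IsLift (w t) (σ t).1) ∧
    ∀ i t, w (faceIncl 1 i t) = E (θ i t) • edgeLift (σ.comp (faceIncl 1 i)) t

/-- total angle -/
def total (θ : Fin 3 → C(stdSimplex ℝ (Fin (1 + 1)), ℝ)) : ℝ :=
  ∑ i : Fin 3, (-1 : ℝ) ^ (i : ℕ) * (θ i (vtx 1) - θ i (vtx 0))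

theorem exists_compat (σ : SingSimplex 2 (CLine m))
    (w : C(stdSimplex ℝ (Fin (2 + 1)), Fin m → ℂ)) (hw : ∀ t, IsLift (w t) (σ t).1) :
    ∃ θ, Compat σ w θ := by
  have h : ∀ i : Fin 3, ∃ θ : C(stdSimplex ℝ (Fin (1 + 1)), ℝ), ∀ t,
      w (faceIncl 1 i t) = E (θ t) • edgeLift (σ.comp (faceIncl 1 i)) t := by
    intro i
    exact exists_angle_of_lifts (σ.comp (faceIncl 1 i)) (edgeLift (σ.comp (faceIncl 1 i)))
      (w.comp (faceIncl 1 i)) (edgeLift_lift _) (fun t => hw _)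
  choose θ hθ using h
  exact ⟨θ, hw, hθ⟩

theorem succAbove_vals : (∀ l : Fin 2, (0 : Fin 3).succAbove l = ![1, 2] l) ∧
    (∀ l : Fin 2, (1 : Fin 3).succAbove l = ![0, 2] l) ∧
    (∀ l : Fin 2, (2 : Fin 3).succAbove l = ![0, 1] l) := by decide

theorem total_face_zero (β : stdSimplex ℝ (Fin (2 + 1)) → ℝ) :
    ∑ i : Fin 3, (-1 : ℝ) ^ (i : ℕ) *
      (β (faceIncl 1 i (vtx 1)) - β (faceIncl 1 i (vtx 0))) = 0 := by
  have hv : ∀ (i : Fin 3) (l : Fin 2), faceIncl 1 i (vtx l) = vtx (i.succAbove l) :=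
    fun i l => smap_vertex _ _
  simp only [hv]
  rw [Fin.sum_univ_three]
  have h0 : (0 : Fin 3).succAbove (1 : Fin 2) = 2 := by decide
  have h1 : (0 : Fin 3).succAbove (0 : Fin 2) = 1 := by decide
  have h2 : (1 : Fin 3).succAbove (1 : Fin 2) = 2 := by decide
  have h3 : (1 : Fin 3).succAbove (0 : Fin 2) = 0 := by decide
  have h4 : (2 : Fin 3).succAbove (1 : Fin 2) = 1 := by decide
  have h5 : (2 : Fin 3).succAbove (0 : Fin 2) = 0 := by decide
  rw [h0, h1, h2, h3, h4, h5]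
  norm_num

theorem Compat.integral {σ : SingSimplex 2 (CLine m)}
    {w : C(stdSimplex ℝ (Fin (2 + 1)), Fin m → ℂ)}
    {θ : Fin 3 → C(stdSimplex ℝ (Fin (1 + 1)), ℝ)} (h : Compat σ w θ) :
    ∃ n : ℤ, total θ = 2 * Real.pi * n := by
  -- angles at the vertices
  have hα : ∀ j : Fin 3, ∃ α : ℝ, w (vtx j) = E α • base (σ (vtx j)) := by
    intro j
    obtain ⟨h1, h2⟩ := (base_lift (σ (vtx j))).unique (h.1 (vtx j))
    refine ⟨arg (star (base (σ (vtx j))) ⬝ᵥ w (vtx j)), ?_⟩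
    have h3 := norm_mul_exp_arg_mul_I (star (base (σ (vtx j))) ⬝ᵥ w (vtx j))
    rw [h2] at h3
    rw [E]
    simp only [ofReal_one, one_mul] at h3
    rw [h3]
    exact h1
  choose α hα using hα
  let β : stdSimplex ℝ (Fin (2 + 1)) → ℝ := fun t => ∑ j, t j * α j
  have hβ : ∀ j : Fin 3, β (vtx j) = α j := by
    intro j
    simp [β, Pi.single_apply]
  have hint : ∀ (i : Fin 3) (l : Fin 2), ∃ n : ℤ,
      θ i (vtx l) = β (faceIncl 1 i (vtx l)) + 2 * Real.pi * n := by
    intro i l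
    rw [← E_eq_iff]
    have h1 := h.2 i (vtx l)
    rw [edgeLift_vtx] at h1
    have h2 : faceIncl 1 i (vtx l) = vtx (i.succAbove l) := smap_vertex _ _
    rw [h2, hβ]
    rw [ContinuousMap.comp_apply, h2, hα] at h1
    exact (smul_right_inj_of_lift (base_lift _) h1).symm
  choose n hn using hint
  refine ⟨∑ i : Fin 3, (-1 : ℤ) ^ (i : ℕ) * (n i 1 - n i 0), ?_⟩
  have h0 := total_face_zero β
  unfold total
  rw [← sub_eq_zero, ← h0]
  push_cast
  rw [Finset.mul_sum, ← Finset.sum_sub_distrib]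
  refine Finset.sum_congr rfl fun i _ => ?_
  rw [hn i 1, hn i 0]
  ring

theorem Compat.unique {σ : SingSimplex 2 (CLine m)}
    {w w' : C(stdSimplex ℝ (Fin (2 + 1)), Fin m → ℂ)}
    {θ θ' : Fin 3 → C(stdSimplex ℝ (Fin (1 + 1)), ℝ)} (h : Compat σ w θ) (h' : Compat σ w' θ') :
    total θ = total θ' := by
  obtain ⟨β, hβ⟩ := exists_angle_of_lifts σ w w' h.1 h'.1
  have hdiff : ∀ i : Fin 3, (θ' i (vtx 1) - θ i (vtx 1) - β (faceIncl 1 i (vtx 1)))
      = (θ' i (vtx 0) - θ i (vtx 0) - β (faceIncl 1 i (vtx 0))) := by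
    intro i
    have hc : Continuous fun t : stdSimplex ℝ (Fin (1 + 1)) =>
        θ' i t - θ i t - β (faceIncl 1 i t) := by fun_prop
    refine const_of_E_eq_one ⟨_, hc⟩ (fun t => ?_) _ _
    simp only [ContinuousMap.coe_mk]
    have h1 := h.2 i t
    have h2 := h'.2 i t
    rw [hβ, h1, smul_smul] at h2
    have h3 := smul_right_inj_of_lift (edgeLift_lift _ t) h2
    have h4 : E (θ' i t - θ i t - β (faceIncl 1 i t)) * (E (β (faceIncl 1 i t)) * E (θ i t))
        = E (θ' i t) := by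
      rw [← E_add, ← E_add]
      congr 2
      push_cast
      ring
    rw [h3] at h4
    exact mul_right_cancel₀ (E_ne_zero (θ' i t)) (by rw [h4, one_mul])
  have h0 := total_face_zero β
  unfold total
  rw [← sub_eq_zero, ← neg_eq_zero, ← h0, ← Finset.sum_sub_distrib, ← Finset.sum_neg_distrib]
  refine Finset.sum_congr rfl fun i _ => ?_
  have := hdiff i
  linear_combination (-1 : ℝ) ^ (i : ℕ) * this

theorem exists_chern (σ : SingSimplex 2 (CLine m)) :
    ∃ n : ℤ, ∀ w θ, Compat σ w θ → total θ = 2 * Real.pi * n := by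
  obtain ⟨w, hw⟩ := exists_lift 2 m σ
  obtain ⟨θ, hθ⟩ := exists_compat σ w hw
  obtain ⟨n, hn⟩ := hθ.integral
  refine ⟨n, fun w' θ' h' => ?_⟩
  rw [← hn]
  exact h'.unique hθ

/-- The integral first Chern cochain of the tautological line bundle. -/
def chern (σ : SingSimplex 2 (CLine m)) : ℤ := (exists_chern σ).choose

theorem chern_spec (σ : SingSimplex 2 (CLine m)) {w θ} (h : Compat σ w θ) :
    total θ = 2 * Real.pi * chern σ := (exists_chern σ).choose_spec w θ h

/-- the Chern cochain is a cocycle -/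
theorem chern_cocycle (ρ : SingSimplex 3 (CLine m)) :
    ∑ j : Fin 4, (-1 : ℤ) ^ (j : ℕ) * chern (ρ.comp (faceIncl 2 j)) = 0 := by
  obtain ⟨w, hw⟩ := exists_lift 3 m ρ
  have h : ∀ f : Fin 2 → Fin 4, ∃ θ : C(stdSimplex ℝ (Fin (1 + 1)), ℝ), ∀ t,
      w (smap f t) = E (θ t) • edgeLift (ρ.comp (smap f)) t := by
    intro f
    exact exists_angle_of_lifts (ρ.comp (smap f)) (edgeLift (ρ.comp (smap f)))
      (w.comp (smap f)) (edgeLift_lift _) (fun t => hw _)
  choose θ hθ using h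
  have hcompat : ∀ j : Fin 4, Compat (ρ.comp (faceIncl 2 j)) (w.comp (faceIncl 2 j))
      (fun i => θ (j.succAbove ∘ i.succAbove)) := by
    intro j
    refine ⟨fun t => hw _, fun i t => ?_⟩
    have h1 : (ρ.comp (faceIncl 2 j)).comp (faceIncl 1 i)
        = ρ.comp (smap (j.succAbove ∘ i.succAbove)) := by
      rw [ContinuousMap.comp_assoc, faceIncl_eq, faceIncl_eq, smap_comp]
    have h2 : faceIncl 2 j (faceIncl 1 i t) = smap (j.succAbove ∘ i.succAbove) t := by
      rw [← smap_comp]; rfl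
    rw [h1, ContinuousMap.comp_apply, h2]
    exact hθ _ t
  have hval : ∀ j : Fin 4, 2 * Real.pi * (chern (ρ.comp (faceIncl 2 j)) : ℝ)
      = ∑ i : Fin 3, (-1 : ℝ) ^ (i : ℕ) *
        (θ (j.succAbove ∘ i.succAbove) (vtx 1) - θ (j.succAbove ∘ i.succAbove) (vtx 0)) := by
    intro j
    rw [← chern_spec _ (hcompat j)]
    rfl
  have hpi : (2 * Real.pi : ℝ) ≠ 0 := by positivity
  have goal : (2 * Real.pi : ℝ) *
      ((∑ j : Fin 4, (-1 : ℤ) ^ (j : ℕ) * chern (ρ.comp (faceIncl 2 j)) : ℤ) : ℝ) = 0 := by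
    push_cast
    rw [Finset.mul_sum]
    have : ∀ j : Fin 4, 2 * Real.pi * ((-1 : ℝ) ^ (j : ℕ) * (chern (ρ.comp (faceIncl 2 j)) : ℝ))
        = (-1 : ℝ) ^ (j : ℕ) * ∑ i : Fin 3, (-1 : ℝ) ^ (i : ℕ) *
        (θ (j.succAbove ∘ i.succAbove) (vtx 1) - θ (j.succAbove ∘ i.succAbove) (vtx 0)) := by
      intro j
      rw [← hval j]; ring
    rw [Finset.sum_congr rfl fun j _ => this j]
    simp only [Fin.sum_univ_four, Fin.sum_univ_three]
    have e1 : ((1 : Fin 4).succAbove ∘ (0 : Fin 3).succAbove : Fin 2 → Fin 4)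
        = (0 : Fin 4).succAbove ∘ (0 : Fin 3).succAbove := by decide
    have e2 : ((2 : Fin 4).succAbove ∘ (0 : Fin 3).succAbove : Fin 2 → Fin 4)
        = (0 : Fin 4).succAbove ∘ (1 : Fin 3).succAbove := by decide
    have e3 : ((3 : Fin 4).succAbove ∘ (0 : Fin 3).succAbove : Fin 2 → Fin 4)
        = (0 : Fin 4).succAbove ∘ (2 : Fin 3).succAbove := by decide
    have e4 : ((2 : Fin 4).succAbove ∘ (1 : Fin 3).succAbove : Fin 2 → Fin 4)
        = (1 : Fin 4).succAbove ∘ (1 : Fin 3).succAbove := by decide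
    have e5 : ((3 : Fin 4).succAbove ∘ (1 : Fin 3).succAbove : Fin 2 → Fin 4)
        = (1 : Fin 4).succAbove ∘ (2 : Fin 3).succAbove := by decide
    have e6 : ((3 : Fin 4).succAbove ∘ (2 : Fin 3).succAbove : Fin 2 → Fin 4)
        = (2 : Fin 4).succAbove ∘ (2 : Fin 3).succAbove := by decide
    rw [e1, e2, e3, e4, e5, e6]
    norm_num
    ring
  have h2 := (mul_eq_zero.1 goal).resolve_left hpi
  exact_mod_cast h2

/-- Evaluation on a sphere made of two 2-simplices with the same boundary. -/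
theorem chern_sub (σ σ' : SingSimplex 2 (CLine m))
    (hface : ∀ i : Fin 3, σ.comp (faceIncl 1 i) = σ'.comp (faceIncl 1 i))
    (w w' : C(stdSimplex ℝ (Fin (2 + 1)), Fin m → ℂ))
    (hw : ∀ t, IsLift (w t) (σ t).1) (hw' : ∀ t, IsLift (w' t) (σ' t).1)
    (ψ : Fin 3 → C(stdSimplex ℝ (Fin (1 + 1)), ℝ))
    (hψ : ∀ i t, w (faceIncl 1 i t) = E (ψ i t) • w' (faceIncl 1 i t)) :
    2 * Real.pi * (chern σ - chern σ' : ℝ) = total ψ := by
  obtain ⟨θ, hθ⟩ := exists_compat σ w hw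
  obtain ⟨θ', hθ'⟩ := exists_compat σ' w' hw'
  have hdiff : ∀ i : Fin 3, (θ i (vtx 1) - θ' i (vtx 1) - ψ i (vtx 1))
      = (θ i (vtx 0) - θ' i (vtx 0) - ψ i (vtx 0)) := by
    intro i
    have hc : Continuous fun t : stdSimplex ℝ (Fin (1 + 1)) =>
        θ i t - θ' i t - ψ i t := by fun_prop
    refine const_of_E_eq_one ⟨_, hc⟩ (fun t => ?_) _ _
    simp only [ContinuousMap.coe_mk]
    have h1 := hθ.2 i t
    have h2 := hθ'.2 i t
    rw [hψ, h2, ← hface, smul_smul] at h1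
    have h3 := smul_right_inj_of_lift (edgeLift_lift _ t) h1
    have h4 : E (θ i t - θ' i t - ψ i t) * (E (ψ i t) * E (θ' i t))
        = E (θ i t) := by
      rw [← E_add, ← E_add]
      congr 2
      push_cast
      ring
    rw [h3] at h4
    exact mul_right_cancel₀ (E_ne_zero (θ i t)) (by rw [h4, one_mul])
  rw [mul_sub, ← chern_spec σ hθ, ← chern_spec σ' hθ']
  unfold total
  rw [← Finset.sum_sub_distrib]
  refine Finset.sum_congr rfl fun i _ => ?_
  have := hdiff i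
  linear_combination (-1 : ℝ) ^ (i : ℕ) * this

end Pool.Agent.Work.MP_9a67bd_gt
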