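import Mathlib
import Pool.Agent.Work.MP_9a67bd_gt.Defs

/-!
# The diagonal subgroup `Sp(1) ⊂ Sp(m)` and its Lie algebra
-/

open scoped Quaternion

noncomputable section

namespace Pool.Agent.Work.MP_9a67bd_gt

/-- The group `Sp(1)` of unit quaternions, embedded diagonally in `Sp(m)`. -/
def diagSp (m : ℕ) : Subgroup (Sp m) where
  carrier := {A | ∃ q : ℍ[ℝ], A.1 = Matrix.diagonal fun _ => q}
  mul_mem' := by
    rintro A B ⟨p, hp⟩ ⟨q, hq⟩
    exact ⟨p * q, by rw [Submonoid.coe_mul, hp, hq, Matrix.diagonal_mul_diagonal]⟩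
  one_mem' := ⟨1, Matrix.diagonal_one.symm⟩
  inv_mem' := by
    rintro A ⟨p, hp⟩
    refine ⟨star p, ?_⟩
    have h1 : (A⁻¹ : Sp m).1 = star A.1 := rfl
    rw [h1, hp, Matrix.star_eq_conjTranspose, Matrix.diagonal_conjTranspose]
    rfl

/-- the diagonal matrix, as a real linear map -/
def diagL (m : ℕ) : ℍ[ℝ] →ₗ[ℝ] Matrix (Fin m) (Fin m) ℍ[ℝ] where
  toFun q := Matrix.diagonal fun _ => q
  map_add' p q := by rw [Matrix.diagonal_add]
  map_smul' r q := by
    rw [RingHom.id_apply, ← Matrix.diagonal_smul]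
    rfl

theorem diagL_injective (m : ℕ) [NeZero m] : Function.Injective (diagL m) := by
  intro p q h
  have := congrFun (congrFun h 0) 0
  simpa [diagL] using this

theorem norm_one_of_mem {m : ℕ} [NeZero m] {A : Sp m} {q : ℍ[ℝ]}
    (h : A.1 = Matrix.diagonal fun _ => q) : ‖q‖ = 1 := by
  have h1 : star A.1 * A.1 = 1 := Unitary.coe_star_mul_self A
  rw [h, Matrix.star_eq_conjTranspose, Matrix.diagonal_conjTranspose,
    Matrix.diagonal_mul_diagonal] at h1
  have h2 := congrFun (congrFun h1 0) 0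
  simp only [Matrix.diagonal_apply_eq, Pi.star_apply, Matrix.one_apply_eq] at h2
  rw [Quaternion.star_mul_self, Quaternion.normSq_eq_norm_mul_self] at h2
  have h3 : ‖q‖ * ‖q‖ = 1 := Quaternion.coe_injective h2
  nlinarith [norm_nonneg q]

/-- a unit quaternion gives an element of the diagonal subgroup -/
def diagElt (m : ℕ) (q : ℍ[ℝ]) (hq : ‖q‖ = 1) : Sp m :=
  ⟨Matrix.diagonal fun _ => q, by
    have h1 : star q * q = 1 := by
      rw [Quaternion.star_mul_self, Quaternion.normSq_eq_norm_mul_self, hq]; simp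
    have h2 : q * star q = 1 := by
      rw [Quaternion.self_mul_star, Quaternion.normSq_eq_norm_mul_self, hq]; simp
    rw [Unitary.mem_iff, Matrix.star_eq_conjTranspose, Matrix.diagonal_conjTranspose,
      Matrix.diagonal_mul_diagonal, Matrix.diagonal_mul_diagonal]
    constructor
    · simp only [Pi.star_apply, h1]; exact Matrix.diagonal_one
    · simp only [Pi.star_apply, h2]; exact Matrix.diagonal_one⟩

theorem diagElt_mem (m : ℕ) (q : ℍ[ℝ]) (hq : ‖q‖ = 1) : diagElt m q hq ∈ diagSp m := ⟨q, rfl⟩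

theorem exp_diag (m : ℕ) (q : ℍ[ℝ]) :
    NormedSpace.exp (Matrix.diagonal fun _ => q : Matrix (Fin m) (Fin m) ℍ[ℝ])
      = Matrix.diagonal fun _ => NormedSpace.exp q := by
  let _ : NormedAlgebra ℚ ℍ[ℝ] := NormedAlgebra.restrictScalars ℚ ℝ ℍ[ℝ]
  rw [Matrix.exp_diagonal]
  congr 1
  rw [Pi.exp_def]

/-- the imaginary quaternions -/
def imH : Submodule ℝ ℍ[ℝ] where
  carrier := {q | q.re = 0}
  add_mem' := by
    intro a b ha hb
    simp only [Set.mem_ofPred_eq] at *
    simp [ha, hb]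
  zero_mem' := by simp
  smul_mem' := by
    intro c x hx
    simp only [Set.mem_ofPred_eq] at *
    simp [hx]

theorem gen_of_im (m : ℕ) [NeZero m] {q : ℍ[ℝ]} (hq : q.re = 0) :
    ∀ t : ℝ, ∃ g ∈ diagSp m, NormedSpace.exp (t • diagL m q) = (g : Sp m).1 := by
  intro t
  have h1 : t • diagL m q = Matrix.diagonal fun _ => t • q := by
    rw [← map_smul]; rfl
  have h2 : ‖NormedSpace.exp (t • q)‖ = 1 := by
    rw [Quaternion.norm_exp]
    simp [hq]
  refine ⟨diagElt m _ h2, diagElt_mem _ _ _, ?_⟩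
  rw [h1, exp_diag]
  rfl

open scoped Matrix.Norms.Operator in
set_option backward.isDefEq.respectTransparency false in
theorem diag_of_gen (m : ℕ) [NeZero m] {ξ : Matrix (Fin m) (Fin m) ℍ[ℝ]}
    (h : ∀ t : ℝ, ∃ g ∈ diagSp m, NormedSpace.exp (t • ξ) = (g : Sp m).1) :
    ξ ∈ LinearMap.range (diagL m) := by
  have hclosed : IsClosed ((LinearMap.range (diagL m) : Submodule ℝ _) :
      Set (Matrix (Fin m) (Fin m) ℍ[ℝ])) := Submodule.closed_of_finiteDimensional _
  have hd : HasDerivAt (fun t : ℝ => NormedSpace.exp (t • ξ)) ξ 0 := by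
    have := hasDerivAt_exp_smul_const (𝕂 := ℝ) ξ (0 : ℝ)
    simpa using this
  have hslope := hd.tendsto_slope_zero
  refine hclosed.mem_of_tendsto hslope ?_
  filter_upwards with t
  refine Submodule.smul_mem _ _ (Submodule.sub_mem _ ?_ ?_)
  · obtain ⟨g, ⟨q, hq⟩, hg⟩ := h (0 + t)
    refine ⟨q, ?_⟩
    rw [hg, hq]; rfl
  · obtain ⟨g, ⟨q, hq⟩, hg⟩ := h 0
    refine ⟨q, ?_⟩
    rw [hg, hq]; rfl

theorem im_of_gen (m : ℕ) [NeZero m] {ξ : Matrix (Fin m) (Fin m) ℍ[ℝ]}
    (h : ∀ t : ℝ, ∃ g ∈ diagSp m, NormedSpace.exp (t • ξ) = (g : Sp m).1) :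
    ξ ∈ imH.map (diagL m) := by
  obtain ⟨q, rfl⟩ := diag_of_gen m h
  refine ⟨q, ?_, rfl⟩
  obtain ⟨g, ⟨p, hp⟩, hg⟩ := h 1
  have h1 : (1 : ℝ) • diagL m q = Matrix.diagonal fun _ => q := by rw [one_smul]; rfl
  rw [h1, exp_diag, hp] at hg
  have h2 : NormedSpace.exp q = p := by
    have := congrFun (congrFun hg 0) 0
    simpa using this
  have h3 := norm_one_of_mem hp
  rw [← h2, Quaternion.norm_exp, Real.norm_eq_abs, ← Real.exp_eq_exp_ℝ, Real.abs_exp,
    Real.exp_eq_one_iff] at h3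
  exact h3

theorem lieAlg_diagSp (m : ℕ) [NeZero m] : lieAlg (diagSp m) = imH.map (diagL m) := by
  apply le_antisymm
  · refine Submodule.span_le.2 fun ξ hξ => im_of_gen m hξ
  · rintro _ ⟨q, hq, rfl⟩
    exact Submodule.subset_span (gen_of_im m hq)

/-- the imaginary quaternions have dimension three -/
def imEquiv : imH ≃ₗ[ℝ] (Fin 3 → ℝ) where
  toFun q := ![q.1.imI, q.1.imJ, q.1.imK]
  invFun v := ⟨⟨0, v 0, v 1, v 2⟩, rfl⟩
  map_add' p q := by
    funext i
    fin_cases i <;> simp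
  map_smul' r q := by
    funext i
    fin_cases i <;> simp
  left_inv q := by
    apply Subtype.ext
    have h : q.1.re = 0 := q.2
    ext <;> simp [h]
  right_inv v := by
    funext i
    fin_cases i <;> simp

theorem finrank_lieAlg (m : ℕ) [NeZero m] : Module.finrank ℝ (lieAlg (diagSp m)) = 3 := by
  rw [lieAlg_diagSp]
  have e : imH ≃ₗ[ℝ] imH.map (diagL m) :=
    Submodule.equivMapOfInjective (diagL m) (diagL_injective m) imH
  rw [← e.finrank_eq, imEquiv.finrank_eq]
  simp

/-- the parametrisation of the diagonal subgroup by unit quaternions -/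
def diagParam (m : ℕ) (q : Metric.sphere (0 : ℍ[ℝ]) 1) : Sp m :=
  diagElt m q.1 (by simp)

theorem continuous_diagParam (m : ℕ) : Continuous (diagParam m) := by
  refine Continuous.subtype_mk ?_ _
  exact Continuous.matrix_diagonal (continuous_pi fun _ => continuous_subtype_val)

theorem range_diagParam (m : ℕ) [NeZero m] :
    Set.range (diagParam m) = (diagSp m : Set (Sp m)) := by
  ext A
  constructor
  · rintro ⟨q, rfl⟩
    exact diagElt_mem _ _ _
  · rintro ⟨q, hq⟩
    refine ⟨⟨q, by simpa using norm_one_of_mem hq⟩, Subtype.ext ?_⟩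
    exact hq.symm

theorem isCompact_diagSp (m : ℕ) [NeZero m] : IsCompact (diagSp m : Set (Sp m)) := by
  rw [← range_diagParam]
  exact isCompact_range (continuous_diagParam m)

theorem isConnected_diagSp (m : ℕ) [NeZero m] : IsConnected (diagSp m : Set (Sp m)) := by
  have h : IsConnected (Metric.sphere (0 : ℍ[ℝ]) 1) := by
    refine isConnected_sphere ?_ _ zero_le_one
    rw [← Module.finrank_eq_rank, Quaternion.finrank_eq_four]
    norm_num
  have : ConnectedSpace (Metric.sphere (0 : ℍ[ℝ]) 1) := isConnected_iff_connectedSpace.1 h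
  rw [← range_diagParam]
  exact isConnected_range (continuous_diagParam m)

/-- the action of the diagonal subgroup in coordinates -/
theorem diag_smul_apply {m : ℕ} {A : Sp m} {q : ℍ[ℝ]} (h : A.1 = Matrix.diagonal fun _ => q)
    (x : QSphere m) (a : Fin m) : (A • x).1 a = q * x.1 a := by
  change (A.1.mulVec x.1) a = _
  rw [h, Matrix.mulVec_diagonal]

/-- the diagonal subgroup acts freely on the sphere -/
theorem diagSp_free (m : ℕ) (A : Sp m) (hA : A ∈ diagSp m) (x : QSphere m)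
    (h : A • x = x) : A = 1 := by
  obtain ⟨q, hq⟩ := hA
  have hx : ∃ a, x.1 a ≠ 0 := by
    by_contra hcon
    push Not at hcon
    have := x.2
    simp [hcon] at this
  obtain ⟨a, ha⟩ := hx
  have h1 : q * x.1 a = x.1 a := by rw [← diag_smul_apply hq, h]
  have h2 : q = 1 := by
    have : (q - 1) * x.1 a = 0 := by rw [sub_mul, h1, one_mul, sub_self]
    rcases mul_eq_zero.1 this with h3 | h3
    · exact sub_eq_zero.1 h3
    · exact absurd h3 ha
  apply Subtype.ext
  rw [hq, h2]
  exact Matrix.diagonal_one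

end Pool.Agent.Work.MP_9a67bd_gt
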