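import Mathlib
import Pool.Agent.Work.MP_9a67bd_gt.Defs
import Pool.Agent.Work.MP_9a67bd_gt.Lift

/-!
# The complementary oriented 2-plane of an orthonormal 4-frame in `ℝ^6`
as a rank one projector of `ℂ^6`
-/

open scoped Matrix
open Matrix

noncomputable section

namespace Pool.Agent.Work.MP_9a67bd_gt

/-- stack two rows on top of four rows -/
def stack (U : Matrix (Fin 2) (Fin 6) ℝ) (Y : Matrix (Fin 4) (Fin 6) ℝ) :
    Matrix (Fin 6) (Fin 6) ℝ :=
  (Matrix.fromRows U Y).submatrix (finSumFinEquiv : Fin 2 ⊕ Fin 4 ≃ Fin 6).symm id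

/-- two coordinate rows -/
def coordRows (a b : Fin 6) : Matrix (Fin 2) (Fin 6) ℝ :=
  Matrix.of ![Pi.single a 1, Pi.single b 1]

/-- the rotation by a quarter turn of the oriented complement of the rows of `Y` -/
def Jmat (Y : Matrix (Fin 4) (Fin 6) ℝ) (a b : Fin 6) : ℝ := (stack (coordRows a b) Y).det

/-- the projector attached to an orthonormal 4-frame -/
def proj (Y : Matrix (Fin 4) (Fin 6) ℝ) : Matrix (Fin 6) (Fin 6) ℂ :=
  Matrix.of fun a b => (1 / 2 : ℂ) * ((((1 : Matrix (Fin 6) (Fin 6) ℝ) - Yᵀ * Y) a b : ℝ)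
    + (Jmat Y a b : ℝ) * Complex.I)

/-- unit null vector of a 2-frame -/
def frameVec (V : Matrix (Fin 2) (Fin 6) ℝ) : Fin 6 → ℂ :=
  fun a => ((Real.sqrt 2)⁻¹ : ℝ) * ((V 0 a : ℂ) - (V 1 a : ℂ) * Complex.I)

theorem stack_mul_transpose (U V : Matrix (Fin 2) (Fin 6) ℝ) (Y : Matrix (Fin 4) (Fin 6) ℝ) :
    stack U Y * (stack V Y)ᵀ =
      (Matrix.fromBlocks (U * Vᵀ) (U * Yᵀ) (Y * Vᵀ) (Y * Yᵀ)).submatrix
        (finSumFinEquiv : Fin 2 ⊕ Fin 4 ≃ Fin 6).symm
        (finSumFinEquiv : Fin 2 ⊕ Fin 4 ≃ Fin 6).symm := by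
  rw [stack, stack, Matrix.transpose_submatrix, ← Matrix.submatrix_mul _ _ _ _ _
    Function.bijective_id, Matrix.transpose_fromRows, Matrix.fromRows_mul_fromCols]

theorem transpose_stack_mul (V : Matrix (Fin 2) (Fin 6) ℝ) (Y : Matrix (Fin 4) (Fin 6) ℝ) :
    (stack V Y)ᵀ * stack V Y = Vᵀ * V + Yᵀ * Y := by
  rw [stack, Matrix.transpose_submatrix, Matrix.submatrix_mul_equiv, Matrix.transpose_fromRows,
    Matrix.fromCols_mul_fromRows]
  rfl

theorem Jmat_frame (V : Matrix (Fin 2) (Fin 6) ℝ) (Y : Matrix (Fin 4) (Fin 6) ℝ)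
    (hVY : Y * Vᵀ = 0) (hY : Y * Yᵀ = 1) (hdet : (stack V Y).det = 1) (a b : Fin 6) :
    Jmat Y a b = V 0 a * V 1 b - V 1 a * V 0 b := by
  have h1 : Jmat Y a b = (stack (coordRows a b) Y * (stack V Y)ᵀ).det := by
    rw [Matrix.det_mul, Matrix.det_transpose, hdet, mul_one]; rfl
  rw [h1, stack_mul_transpose, Matrix.det_submatrix_equiv_self, hVY, hY,
    Matrix.det_fromBlocks_zero₂₁, Matrix.det_one, mul_one, Matrix.det_fin_two]
  simp [coordRows, Matrix.mul_apply, Pi.single_apply]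

theorem isLift_of_frame (V : Matrix (Fin 2) (Fin 6) ℝ) (Y : Matrix (Fin 4) (Fin 6) ℝ)
    (hV : V * Vᵀ = 1) (hVY : Y * Vᵀ = 0) (hY : Y * Yᵀ = 1) (hdet : (stack V Y).det = 1) :
    IsLift (frameVec V) (proj Y) := by
  have hs : ((Real.sqrt 2)⁻¹ : ℝ) * ((Real.sqrt 2)⁻¹ : ℝ) = 1 / 2 := by
    rw [← mul_inv, Real.mul_self_sqrt (by norm_num)]; norm_num
  have hsc : (((Real.sqrt 2)⁻¹ : ℝ) : ℂ) * (((Real.sqrt 2)⁻¹ : ℝ) : ℂ) = 1 / 2 := by
    rw [← Complex.ofReal_mul, hs]; push_cast; ring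
  generalize hc : (((Real.sqrt 2)⁻¹ : ℝ) : ℂ) = c at hsc
  have hcc : (starRingEnd ℂ) c = c := by rw [← hc]; exact Complex.conj_ofReal _
  have hmul : ∀ a b, frameVec V a * star (frameVec V b) = (1 / 2 : ℂ) *
      (((V 0 a * V 0 b + V 1 a * V 1 b : ℝ) : ℂ) +
        ((V 0 a * V 1 b - V 1 a * V 0 b : ℝ) : ℂ) * Complex.I) := by
    intro a b
    simp only [frameVec, star_mul', star_sub, Complex.star_def, Complex.conj_ofReal, Complex.conj_I,
      hc, hcc]
    push_cast
    linear_combination ((V 0 a : ℂ) - (V 1 a : ℂ) * Complex.I) *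
      ((V 0 b : ℂ) + (V 1 b : ℂ) * Complex.I) * hsc -
      (1 / 2 : ℂ) * (V 1 a : ℂ) * (V 1 b : ℂ) * Complex.I_sq
  have hsum : Vᵀ * V + Yᵀ * Y = 1 := by
    rw [← transpose_stack_mul]
    have h1 : stack V Y * (stack V Y)ᵀ = 1 := by
      have hVY' : V * Yᵀ = 0 := by
        have := congrArg Matrix.transpose hVY
        simpa [Matrix.transpose_mul] using this
      rw [stack_mul_transpose, hV, hVY, hVY', hY, Matrix.fromBlocks_one, Matrix.submatrix_one_equiv]
    exact mul_eq_one_comm.1 h1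
  refine ⟨?_, ?_⟩
  · have h1 : star (frameVec V) ⬝ᵥ frameVec V = ∑ a, frameVec V a * star (frameVec V a) := by
      simp only [dotProduct, Pi.star_apply]
      exact Finset.sum_congr rfl fun a _ => mul_comm _ _
    rw [h1]
    simp only [hmul]
    have h00 : ∑ a, V 0 a * V 0 a = 1 := by
      have := congrFun (congrFun hV 0) 0
      simpa [Matrix.mul_apply] using this
    have h11 : ∑ a, V 1 a * V 1 a = 1 := by
      have := congrFun (congrFun hV 1) 1
      simpa [Matrix.mul_apply] using this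
    have h2 : ∀ a, (1 / 2 : ℂ) *
      (((V 0 a * V 0 a + V 1 a * V 1 a : ℝ) : ℂ) +
        ((V 0 a * V 1 a - V 1 a * V 0 a : ℝ) : ℂ) * Complex.I)
        = (((1 / 2) * (V 0 a * V 0 a + V 1 a * V 1 a) : ℝ) : ℂ) := by
      intro a
      push_cast
      ring
    rw [Finset.sum_congr rfl fun a _ => h2 a, ← Complex.ofReal_sum, ← Finset.mul_sum,
      Finset.sum_add_distrib, h00, h11]
    norm_num
  · ext a b
    rw [Matrix.vecMulVec_apply, Pi.star_apply, hmul, proj, Matrix.of_apply,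
      Jmat_frame V Y hVY hY hdet]
    have h3 : ((1 : Matrix (Fin 6) (Fin 6) ℝ) - Yᵀ * Y) a b = V 0 a * V 0 b + V 1 a * V 1 b := by
      rw [← hsum]
      simp [Matrix.mul_apply, Fin.sum_univ_two]
    rw [h3]

theorem exists_frame (Y : Matrix (Fin 4) (Fin 6) ℝ) (hY : Y * Yᵀ = 1) :
    ∃ V : Matrix (Fin 2) (Fin 6) ℝ, V * Vᵀ = 1 ∧ Y * Vᵀ = 0 ∧ (stack V Y).det = 1 := by
  -- an orthonormal basis extending the rows of `Y`
  let v : Fin 2 ⊕ Fin 4 → EuclideanSpace ℝ (Fin 6) :=
    Sum.elim (fun _ => 0) (fun i => WithLp.toLp 2 (Y i))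
  have hv : Orthonormal ℝ ((Set.range Sum.inr : Set (Fin 2 ⊕ Fin 4)).domRestrict v) := by
    rw [orthonormal_iff_ite]
    rintro ⟨_, i, rfl⟩ ⟨_, j, rfl⟩
    have h1 := congrFun (congrFun hY j) i
    simp only [Set.domRestrict_apply, v, Sum.elim_inr]
    rw [EuclideanSpace.inner_eq_star_dotProduct]
    simp only [Matrix.mul_apply, Matrix.transpose_apply, Matrix.one_apply] at h1
    simp only [dotProduct, star_trivial]
    rw [h1]
    by_cases hij : i = j
    · subst hij; simp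
    · have hne : (⟨Sum.inr i, ⟨i, rfl⟩⟩ : (Set.range Sum.inr : Set (Fin 2 ⊕ Fin 4)))
          ≠ ⟨Sum.inr j, ⟨j, rfl⟩⟩ := by
        intro h
        exact hij (Sum.inr_injective (congrArg Subtype.val h))
      rw [if_neg (Ne.symm hij), if_neg hne]
  obtain ⟨b, hb⟩ := hv.exists_orthonormalBasis_extension_of_card_eq (by simp)
  let W : Matrix (Fin 2) (Fin 6) ℝ := Matrix.of fun i a => b (Sum.inl i) a
  have hYb : ∀ i a, Y i a = b (Sum.inr i) a := by
    intro i a
    rw [hb _ ⟨i, rfl⟩]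
    rfl
  have hon := b.orthonormal
  rw [orthonormal_iff_ite] at hon
  have hin : ∀ i j, ∑ a, b i a * b j a = if i = j then 1 else 0 := by
    intro i j
    rw [← hon i j, EuclideanSpace.inner_eq_star_dotProduct]
    simp only [dotProduct, star_trivial]
    exact Finset.sum_congr rfl fun a _ => mul_comm _ _
  have hW : W * Wᵀ = 1 := by
    ext i j
    have := hin (Sum.inl i) (Sum.inl j)
    simpa [W, Matrix.mul_apply, Matrix.one_apply] using this
  have hYW : Y * Wᵀ = 0 := by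
    ext i j
    have := hin (Sum.inr i) (Sum.inl j)
    simpa [W, Matrix.mul_apply, hYb] using this
  have hdet : (stack W Y).det = 1 ∨ (stack W Y).det = -1 := by
    have h1 : stack W Y * (stack W Y)ᵀ = 1 := by
      have hVY' : W * Yᵀ = 0 := by
        have := congrArg Matrix.transpose hYW
        simpa [Matrix.transpose_mul] using this
      rw [stack_mul_transpose, hW, hYW, hVY', hY, Matrix.fromBlocks_one,
        Matrix.submatrix_one_equiv]
    have h2 := congrArg Matrix.det h1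
    rw [Matrix.det_mul, Matrix.det_transpose, Matrix.det_one] at h2
    exact mul_self_eq_one_iff.1 h2
  rcases hdet with h | h
  · exact ⟨W, hW, hYW, h⟩
  · -- swap the two rows
    let s : Matrix (Fin 2) (Fin 2) ℝ := !![0, 1; 1, 0]
    have hs : s * sᵀ = 1 := by
      ext i j
      fin_cases i <;> fin_cases j <;> simp [s, Matrix.mul_apply]
    refine ⟨s * W, ?_, ?_, ?_⟩
    · rw [Matrix.transpose_mul, Matrix.mul_assoc, ← Matrix.mul_assoc W, hW, Matrix.one_mul, hs]
    · rw [Matrix.transpose_mul, ← Matrix.mul_assoc, hYW, Matrix.zero_mul]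
    · have h3 : stack (s * W) Y = (Matrix.fromBlocks s 0 0 1).submatrix
          (finSumFinEquiv : Fin 2 ⊕ Fin 4 ≃ Fin 6).symm
          (finSumFinEquiv : Fin 2 ⊕ Fin 4 ≃ Fin 6).symm * stack W Y := by
        rw [stack, stack, Matrix.submatrix_mul_equiv, Matrix.fromBlocks_mul_fromRows]
        simp
      rw [h3, Matrix.det_mul, Matrix.det_submatrix_equiv_self, Matrix.det_fromBlocks_zero₂₁, h,
        Matrix.det_one, Matrix.det_fin_two]
      simp [s]

theorem Jmat_mul (L : Matrix (Fin 4) (Fin 4) ℝ) (hdet : L.det = 1)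
    (Y : Matrix (Fin 4) (Fin 6) ℝ) (a b : Fin 6) : Jmat (L * Y) a b = Jmat Y a b := by
  have h3 : stack (coordRows a b) (L * Y) = (Matrix.fromBlocks 1 0 0 L).submatrix
      (finSumFinEquiv : Fin 2 ⊕ Fin 4 ≃ Fin 6).symm
      (finSumFinEquiv : Fin 2 ⊕ Fin 4 ≃ Fin 6).symm * stack (coordRows a b) Y := by
    rw [stack, stack, Matrix.submatrix_mul_equiv, Matrix.fromBlocks_mul_fromRows]
    simp
  rw [Jmat, h3, Matrix.det_mul, Matrix.det_submatrix_equiv_self, Matrix.det_fromBlocks_zero₂₁,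
    hdet, Matrix.det_one, one_mul, one_mul]
  rfl

theorem proj_mul (L : Matrix (Fin 4) (Fin 4) ℝ) (hL : Lᵀ * L = 1) (hdet : L.det = 1)
    (Y : Matrix (Fin 4) (Fin 6) ℝ) : proj (L * Y) = proj Y := by
  ext a b
  simp only [proj, Matrix.of_apply]
  rw [Jmat_mul L hdet, Matrix.transpose_mul, Matrix.mul_assoc, ← Matrix.mul_assoc Lᵀ, hL,
    Matrix.one_mul]

theorem continuous_Jmat (a b : Fin 6) :
    Continuous fun Y : Matrix (Fin 4) (Fin 6) ℝ => Jmat Y a b := by
  unfold Jmat stack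
  refine Continuous.matrix_det (Continuous.matrix_submatrix ?_ _ _)
  refine continuous_matrix ?_
  rintro (i | i) j
  · exact continuous_const
  · exact continuous_id.matrix_elem i j

theorem continuous_proj : Continuous proj := by
  refine continuous_matrix fun a b => ?_
  simp only [proj, Matrix.of_apply]
  have h1 : Continuous fun Y : Matrix (Fin 4) (Fin 6) ℝ =>
      ((1 : Matrix (Fin 6) (Fin 6) ℝ) - Yᵀ * Y) a b :=
    (continuous_const.sub (continuous_id.matrix_transpose.matrix_mul continuous_id)).matrix_elem a b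
  exact continuous_const.mul ((Complex.continuous_ofReal.comp h1).add
    ((Complex.continuous_ofReal.comp (continuous_Jmat a b)).mul continuous_const))

end Pool.Agent.Work.MP_9a67bd_gt
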