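import Mathlib
import Pool.Agent.Work.MP_9a67bd_gt.Defs
import Pool.Agent.Work.MP_9a67bd_gt.Lift
import Pool.Agent.Work.MP_9a67bd_gt.Group
import Pool.Agent.Work.MP_9a67bd_gt.Projector

/-!
# The zero level of the diagonal `Sp(1)` on `ℍ^m` is a Stiefel manifold
-/

open scoped Quaternion Matrix

noncomputable section

namespace Pool.Agent.Work.MP_9a67bd_gt

/-- the four real coordinate rows (scaled by two) -/
def rows {m : ℕ} (x : Fin m → ℍ[ℝ]) : Matrix (Fin 4) (Fin m) ℝ :=
  Matrix.of fun α a => 2 * ![(x a).re, (x a).imI, (x a).imJ, (x a).imK] α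

theorem continuous_rows {m : ℕ} : Continuous (rows (m := m)) := by
  refine continuous_matrix fun α a => ?_
  have h : Continuous fun x : Fin m → ℍ[ℝ] => x a := continuous_apply a
  fin_cases α
  · exact continuous_const.mul (Quaternion.continuous_re.comp h)
  · exact continuous_const.mul (Quaternion.continuous_imI.comp h)
  · exact continuous_const.mul (Quaternion.continuous_imJ.comp h)
  · exact continuous_const.mul (Quaternion.continuous_imK.comp h)

/-- left multiplication by a quaternion as a real matrix -/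
def leftMul (q : ℍ[ℝ]) : Matrix (Fin 4) (Fin 4) ℝ :=
  !![q.re, -q.imI, -q.imJ, -q.imK;
     q.imI, q.re, -q.imK, q.imJ;
     q.imJ, q.imK, q.re, -q.imI;
     q.imK, -q.imJ, q.imI, q.re]

theorem rows_mul {m : ℕ} (q : ℍ[ℝ]) (x : Fin m → ℍ[ℝ]) :
    rows (fun a => q * x a) = leftMul q * rows x := by
  ext α a
  fin_cases α <;>
  simp [rows, leftMul, Matrix.mul_apply, Fin.sum_univ_four] <;> ring

theorem normSq_unit {q : ℍ[ℝ]} (hq : ‖q‖ = 1) :
    q.re ^ 2 + q.imI ^ 2 + q.imJ ^ 2 + q.imK ^ 2 = 1 := by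
  rw [← Quaternion.normSq_def', Quaternion.normSq_eq_norm_mul_self, hq]
  norm_num

theorem leftMul_orth {q : ℍ[ℝ]} (hq : ‖q‖ = 1) : (leftMul q)ᵀ * leftMul q = 1 := by
  have h := normSq_unit hq
  ext i j
  fin_cases i <;> fin_cases j <;>
  simp [leftMul, Matrix.mul_apply, Fin.sum_univ_four] <;>
  first
    | linear_combination h
    | ring

theorem leftMul_det {q : ℍ[ℝ]} (hq : ‖q‖ = 1) : (leftMul q).det = 1 := by
  have h := normSq_unit hq
  have h1 : (leftMul q).det = (q.re ^ 2 + q.imI ^ 2 + q.imJ ^ 2 + q.imK ^ 2) ^ 2 := by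
    simp [leftMul, Matrix.det_succ_row_zero, Fin.sum_univ_succ, Fin.succAbove]
    ring
  rw [h1, h]
  norm_num

theorem moment_diag {m : ℕ} (x : Fin m → ℍ[ℝ]) (q : ℍ[ℝ]) :
    moment x (diagL m q) = (1 / 2 : ℝ) • ∑ a, star (x a) * (q * x a) := by
  unfold moment
  congr 1
  simp only [dotProduct, Pi.star_apply]
  refine Finset.sum_congr rfl fun a _ => ?_
  change _ * ((Matrix.diagonal fun _ => q).mulVec x) a = _
  rw [Matrix.mulVec_diagonal]

theorem moment_zero_iff {m : ℕ} (x : Fin m → ℍ[ℝ]) [NeZero m] :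
    (∀ ξ ∈ lieAlg (diagSp m), moment x ξ = 0) ↔
      ∀ q : ℍ[ℝ], q.re = 0 → ∑ a, star (x a) * (q * x a) = 0 := by
  rw [lieAlg_diagSp]
  constructor
  · intro h q hq
    have h1 := h (diagL m q) ⟨q, hq, rfl⟩
    rw [moment_diag] at h1
    exact (smul_eq_zero.1 h1).resolve_left (by norm_num)
  · rintro h _ ⟨q, hq, rfl⟩
    rw [moment_diag, h q hq, smul_zero]

/-- components of `x̄ q x` -/
theorem comps (q x : ℍ[ℝ]) (hq : q.re = 0) :
    (star x * (q * x)).imI = (x.re ^ 2 + x.imI ^ 2 - x.imJ ^ 2 - x.imK ^ 2) * q.imI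
        + 2 * (x.imI * x.imJ + x.re * x.imK) * q.imJ
        + 2 * (x.imI * x.imK - x.re * x.imJ) * q.imK ∧
    (star x * (q * x)).imJ = 2 * (x.imI * x.imJ - x.re * x.imK) * q.imI
        + (x.re ^ 2 - x.imI ^ 2 + x.imJ ^ 2 - x.imK ^ 2) * q.imJ
        + 2 * (x.imJ * x.imK + x.re * x.imI) * q.imK ∧
    (star x * (q * x)).imK = 2 * (x.imI * x.imK + x.re * x.imJ) * q.imI
        + 2 * (x.imJ * x.imK - x.re * x.imI) * q.imJ
        + (x.re ^ 2 - x.imI ^ 2 - x.imJ ^ 2 + x.imK ^ 2) * q.imK := by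
  refine ⟨?_, ?_, ?_⟩
  · simp [hq]; ring
  · simp [hq]; ring
  · simp [hq]; ring

theorem norm_sq_comps (x : ℍ[ℝ]) :
    ‖x‖ ^ 2 = x.re ^ 2 + x.imI ^ 2 + x.imJ ^ 2 + x.imK ^ 2 := by
  rw [sq ‖x‖, ← Quaternion.normSq_eq_norm_mul_self, Quaternion.normSq_def']

theorem quat_sum_imI {m : ℕ} (f : Fin m → ℍ[ℝ]) : (∑ a, f a).imI = ∑ a, (f a).imI := by
  have h : ∀ s : Finset (Fin m), (∑ a ∈ s, f a).imI = ∑ a ∈ s, (f a).imI := by
    intro s
    induction s using Finset.induction_on with
    | empty => simp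
    | insert a s ha ih => rw [Finset.sum_insert ha, Finset.sum_insert ha, Quaternion.imI_add, ih]
  exact h _

theorem quat_sum_imJ {m : ℕ} (f : Fin m → ℍ[ℝ]) : (∑ a, f a).imJ = ∑ a, (f a).imJ := by
  have h : ∀ s : Finset (Fin m), (∑ a ∈ s, f a).imJ = ∑ a ∈ s, (f a).imJ := by
    intro s
    induction s using Finset.induction_on with
    | empty => simp
    | insert a s ha ih => rw [Finset.sum_insert ha, Finset.sum_insert ha, Quaternion.imJ_add, ih]
  exact h _

theorem quat_sum_imK {m : ℕ} (f : Fin m → ℍ[ℝ]) : (∑ a, f a).imK = ∑ a, (f a).imK := by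
  have h : ∀ s : Finset (Fin m), (∑ a ∈ s, f a).imK = ∑ a ∈ s, (f a).imK := by
    intro s
    induction s using Finset.induction_on with
    | empty => simp
    | insert a s ha ih => rw [Finset.sum_insert ha, Finset.sum_insert ha, Quaternion.imK_add, ih]
  exact h _

/-- On the zero level the four coordinate rows are orthonormal. -/
theorem rows_gram {m : ℕ} [NeZero m] (x : ZeroLevel (diagSp m)) :
    rows x.1.1 * (rows x.1.1)ᵀ = 1 := by
  have hx := (moment_zero_iff x.1.1).1 x.2
  have hn := x.1.2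
  simp only [norm_sq_comps] at hn
  set y := x.1.1 with hy
  have hI := hx ⟨0, 1, 0, 0⟩ rfl
  have hJ := hx ⟨0, 0, 1, 0⟩ rfl
  have hK := hx ⟨0, 0, 0, 1⟩ rfl
  have e11 := congrArg QuaternionAlgebra.imI hI
  have e12 := congrArg QuaternionAlgebra.imJ hI
  have e13 := congrArg QuaternionAlgebra.imK hI
  have e21 := congrArg QuaternionAlgebra.imI hJ
  have e22 := congrArg QuaternionAlgebra.imJ hJ
  have e23 := congrArg QuaternionAlgebra.imK hJ
  have e31 := congrArg QuaternionAlgebra.imI hK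
  have e32 := congrArg QuaternionAlgebra.imJ hK
  have e33 := congrArg QuaternionAlgebra.imK hK
  rw [quat_sum_imI] at e11 e21 e31
  rw [quat_sum_imJ] at e12 e22 e32
  rw [quat_sum_imK] at e13 e23 e33
  simp only [(comps _ _ (rfl : (⟨0, 1, 0, 0⟩ : ℍ[ℝ]).re = 0)).1,
    (comps _ _ (rfl : (⟨0, 1, 0, 0⟩ : ℍ[ℝ]).re = 0)).2.1,
    (comps _ _ (rfl : (⟨0, 1, 0, 0⟩ : ℍ[ℝ]).re = 0)).2.2] at e11 e12 e13
  simp only [(comps _ _ (rfl : (⟨0, 0, 1, 0⟩ : ℍ[ℝ]).re = 0)).1,
    (comps _ _ (rfl : (⟨0, 0, 1, 0⟩ : ℍ[ℝ]).re = 0)).2.1,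
    (comps _ _ (rfl : (⟨0, 0, 1, 0⟩ : ℍ[ℝ]).re = 0)).2.2] at e21 e22 e23
  simp only [(comps _ _ (rfl : (⟨0, 0, 0, 1⟩ : ℍ[ℝ]).re = 0)).1,
    (comps _ _ (rfl : (⟨0, 0, 0, 1⟩ : ℍ[ℝ]).re = 0)).2.1,
    (comps _ _ (rfl : (⟨0, 0, 0, 1⟩ : ℍ[ℝ]).re = 0)).2.2] at e31 e32 e33
  simp only [mul_one, mul_zero, add_zero, zero_add, Finset.sum_add_distrib,
    Finset.sum_sub_distrib, ← Finset.mul_sum, Quaternion.imI_zero, Quaternion.imJ_zero,
    Quaternion.imK_zero] at e11 e12 e13 e21 e22 e23 e31 e32 e33 hn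
  have key : ∀ α β : Fin 4, (rows y * (rows y)ᵀ) α β
      = 4 * ∑ a, ![(y a).re, (y a).imI, (y a).imJ, (y a).imK] α *
        ![(y a).re, (y a).imI, (y a).imJ, (y a).imK] β := by
    intro α β
    simp only [Matrix.mul_apply, rows, Matrix.transpose_apply, Matrix.of_apply, Finset.mul_sum]
    exact Finset.sum_congr rfl fun a _ => by ring
  have c01 : ∑ a, (y a).re * (y a).imI = 0 := by linarith
  have c02 : ∑ a, (y a).re * (y a).imJ = 0 := by linarith
  have c03 : ∑ a, (y a).re * (y a).imK = 0 := by linarith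
  have c12 : ∑ a, (y a).imI * (y a).imJ = 0 := by linarith
  have c13 : ∑ a, (y a).imI * (y a).imK = 0 := by linarith
  have c23 : ∑ a, (y a).imJ * (y a).imK = 0 := by linarith
  have c10 : ∑ a, (y a).imI * (y a).re = 0 := by simpa only [mul_comm] using c01
  have c20 : ∑ a, (y a).imJ * (y a).re = 0 := by simpa only [mul_comm] using c02
  have c30 : ∑ a, (y a).imK * (y a).re = 0 := by simpa only [mul_comm] using c03
  have c21 : ∑ a, (y a).imJ * (y a).imI = 0 := by simpa only [mul_comm] using c12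
  have c31 : ∑ a, (y a).imK * (y a).imI = 0 := by simpa only [mul_comm] using c13
  have c32 : ∑ a, (y a).imK * (y a).imJ = 0 := by simpa only [mul_comm] using c23
  ext α β
  rw [key]
  fin_cases α <;> fin_cases β <;>
  simp [← sq] <;>
  first
    | assumption
    | linarith

/-- The zero level in terms of the coordinate rows (converse direction). -/
theorem moment_of_rows_gram {m : ℕ} [NeZero m] (y : Fin m → ℍ[ℝ])
    (h : rows y * (rows y)ᵀ = 1) : ∀ ξ ∈ lieAlg (diagSp m), moment y ξ = 0 := by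
  rw [moment_zero_iff]
  intro q hq
  have key : ∀ α β : Fin 4, (rows y * (rows y)ᵀ) α β
      = 4 * ∑ a, ![(y a).re, (y a).imI, (y a).imJ, (y a).imK] α *
        ![(y a).re, (y a).imI, (y a).imJ, (y a).imK] β := by
    intro α β
    simp only [Matrix.mul_apply, rows, Matrix.transpose_apply, Matrix.of_apply, Finset.mul_sum]
    exact Finset.sum_congr rfl fun a _ => by ring
  rw [h] at key
  have d0 : ∑ a, (y a).re ^ 2 = 1 / 4 := by
    have := key 0 0
    simp [← sq] at this
    linarith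
  have d1 : ∑ a, (y a).imI ^ 2 = 1 / 4 := by
    have := key 1 1
    simp [← sq] at this
    linarith
  have d2 : ∑ a, (y a).imJ ^ 2 = 1 / 4 := by
    have := key 2 2
    simp [← sq] at this
    linarith
  have d3 : ∑ a, (y a).imK ^ 2 = 1 / 4 := by
    have := key 3 3
    simp [← sq] at this
    linarith
  have c01 : ∑ a, (y a).re * (y a).imI = 0 := by
    have := key 0 1
    simpa using this
  have c02 : ∑ a, (y a).re * (y a).imJ = 0 := by
    have := key 0 2
    simpa using this
  have c03 : ∑ a, (y a).re * (y a).imK = 0 := by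
    have := key 0 3
    simpa using this
  have c12 : ∑ a, (y a).imI * (y a).imJ = 0 := by
    have := key 1 2
    simpa using this
  have c13 : ∑ a, (y a).imI * (y a).imK = 0 := by
    have := key 1 3
    simpa using this
  have c23 : ∑ a, (y a).imJ * (y a).imK = 0 := by
    have := key 2 3
    simpa using this
  have hre : ∀ x : ℍ[ℝ], (star x * (q * x)).re = 0 := by
    intro x
    simp [hq]
    ring
  have hresum : (∑ a, star (y a) * (q * y a)).re = ∑ a, (star (y a) * (q * y a)).re := by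
    have h : ∀ s : Finset (Fin m), (∑ a ∈ s, star (y a) * (q * y a)).re
        = ∑ a ∈ s, (star (y a) * (q * y a)).re := by
      intro s
      induction s using Finset.induction_on with
      | empty => simp
      | insert a s ha ih => rw [Finset.sum_insert ha, Finset.sum_insert ha, Quaternion.re_add, ih]
    exact h _
  apply Quaternion.ext
  · rw [hresum]
    simp only [hre, Finset.sum_const_zero, Quaternion.re_zero]
  · rw [quat_sum_imI]
    simp only [(comps _ _ hq).1, Finset.sum_add_distrib, Finset.sum_sub_distrib,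
      ← Finset.sum_mul, ← Finset.mul_sum, d0, d1, d2, d3, c01, c02, c03, c12, c13, c23]
    simp
  · rw [quat_sum_imJ]
    simp only [(comps _ _ hq).2.1, Finset.sum_add_distrib, Finset.sum_sub_distrib,
      ← Finset.sum_mul, ← Finset.mul_sum, d0, d1, d2, d3, c01, c02, c03, c12, c13, c23]
    simp
  · rw [quat_sum_imK]
    simp only [(comps _ _ hq).2.2, Finset.sum_add_distrib, Finset.sum_sub_distrib,
      ← Finset.sum_mul, ← Finset.mul_sum, d0, d1, d2, d3, c01, c02, c03, c12, c13, c23]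
    simp

theorem norm_of_rows_gram {m : ℕ} (y : Fin m → ℍ[ℝ])
    (h : rows y * (rows y)ᵀ = 1) : ∑ a, ‖y a‖ ^ 2 = 1 := by
  have key : ∀ α β : Fin 4, (rows y * (rows y)ᵀ) α β
      = 4 * ∑ a, ![(y a).re, (y a).imI, (y a).imJ, (y a).imK] α *
        ![(y a).re, (y a).imI, (y a).imJ, (y a).imK] β := by
    intro α β
    simp only [Matrix.mul_apply, rows, Matrix.transpose_apply, Matrix.of_apply, Finset.mul_sum]
    exact Finset.sum_congr rfl fun a _ => by ring
  rw [h] at key
  have d0 : ∑ a, (y a).re ^ 2 = 1 / 4 := by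
    have := key 0 0
    simp [← sq] at this
    linarith
  have d1 : ∑ a, (y a).imI ^ 2 = 1 / 4 := by
    have := key 1 1
    simp [← sq] at this
    linarith
  have d2 : ∑ a, (y a).imJ ^ 2 = 1 / 4 := by
    have := key 2 2
    simp [← sq] at this
    linarith
  have d3 : ∑ a, (y a).imK ^ 2 = 1 / 4 := by
    have := key 3 3
    simp [← sq] at this
    linarith
  simp only [norm_sq_comps, Finset.sum_add_distrib, d0, d1, d2, d3]
  norm_num

/-! ## The map to complex lines -/

/-- The continuous map from the reduction to the rank one projectors of `ℂ^6`. -/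
def lineOfZero (x : ZeroLevel (diagSp 6)) : CLine 6 :=
  ⟨proj (rows x.1.1), by
    obtain ⟨V, hV, hVY, hdet⟩ := exists_frame _ (rows_gram x)
    exact ⟨frameVec V, isLift_of_frame V _ hV hVY (rows_gram x) hdet⟩⟩

theorem continuous_lineOfZero : Continuous lineOfZero := by
  refine Continuous.subtype_mk ?_ _
  exact continuous_proj.comp (continuous_rows.comp
    (continuous_subtype_val.comp continuous_subtype_val))

theorem lineOfZero_rel (x y : ZeroLevel (diagSp 6)) (h : x ≈ y) : lineOfZero x = lineOfZero y := by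
  obtain ⟨⟨g, q, hq⟩, hg⟩ := h
  apply Subtype.ext
  have hn := norm_one_of_mem hq
  have h1 : x.1.1 = fun a => q * y.1.1 a := by
    funext a
    rw [← diag_smul_apply hq y.1 a]
    have h2 : g • y.1 = x.1 := hg
    rw [h2]
  change proj (rows x.1.1) = proj (rows y.1.1)
  rw [h1, rows_mul, proj_mul _ (leftMul_orth hn) (leftMul_det hn)]

/-- The classifying map of the reduction. -/
def lineMap : C(Reduction (diagSp 6), CLine 6) :=
  ⟨Quotient.lift lineOfZero lineOfZero_rel, continuous_lineOfZero.quotient_lift _⟩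

end Pool.Agent.Work.MP_9a67bd_gt
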