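import Mathlib
import Pool.Agent.Work.MP_9a67bd_gt.Defs
import Pool.Agent.Work.MP_9a67bd_gt.Lift
import Pool.Agent.Work.MP_9a67bd_gt.Group
import Pool.Agent.Work.MP_9a67bd_gt.Projector
import Pool.Agent.Work.MP_9a67bd_gt.ZeroMap
import Pool.Agent.Work.MP_9a67bd_gt.Cocycle

/-!
# An explicit 2-sphere in the zero level, as a difference of two singular 2-simplices
-/

open scoped Quaternion Matrix

noncomputable section

namespace Pool.Agent.Work.MP_9a67bd_gt

/-! ## coordinates of faces -/

theorem face_self {k : ℕ} (i : Fin (k + 2)) (t : stdSimplex ℝ (Fin (k + 1))) :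
    faceIncl k i t i = 0 := by
  change (stdSimplex.map i.succAbove t) i = 0
  rw [stdSimplex.map_coe, FunOnFinite.linearMap_apply_apply]
  apply Finset.sum_eq_zero
  intro j hj
  simp [Fin.succAbove_ne] at hj

theorem face_succAbove {k : ℕ} (i : Fin (k + 2)) (t : stdSimplex ℝ (Fin (k + 1)))
    (l : Fin (k + 1)) : faceIncl k i t (i.succAbove l) = t l := by
  change (stdSimplex.map i.succAbove t) (i.succAbove l) = t l
  rw [stdSimplex.map_coe, FunOnFinite.linearMap_apply_apply]
  have : (Finset.univ.filter fun j : Fin (k + 1) => i.succAbove j = i.succAbove l) = {l} := by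
    ext j
    simp
  rw [this, Finset.sum_singleton]

/-! ## The vectors -/

/-- quaternion with given components -/
def mkQ (a b c d : ℝ) : ℍ[ℝ] := ⟨a, b, c, d⟩

@[simp] theorem mkQ_re (a b c d : ℝ) : (mkQ a b c d).re = a := rfl
@[simp] theorem mkQ_imI (a b c d : ℝ) : (mkQ a b c d).imI = b := rfl
@[simp] theorem mkQ_imJ (a b c d : ℝ) : (mkQ a b c d).imJ = c := rfl
@[simp] theorem mkQ_imK (a b c d : ℝ) : (mkQ a b c d).imK = d := rfl

/-- special vectors of `ℍ^6` -/
def vec (a b c d : ℝ) : Fin 6 → ℍ[ℝ] :=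
  ![mkQ a 0 0 0, mkQ b 0 0 0, mkQ c 0 0 0, mkQ 0 d 0 0, mkQ 0 0 d 0, mkQ 0 0 0 d]

theorem norm_vec (a b c d : ℝ) : ∑ i, ‖vec a b c d i‖ ^ 2 = a ^ 2 + b ^ 2 + c ^ 2 + 3 * d ^ 2 := by
  simp only [norm_sq_comps]
  simp [vec, Fin.sum_univ_succ]
  ring

theorem rows_vec (a b c d : ℝ) : rows (vec a b c d) =
    !![2 * a, 2 * b, 2 * c, 0, 0, 0;
       0, 0, 0, 2 * d, 0, 0;
       0, 0, 0, 0, 2 * d, 0;
       0, 0, 0, 0, 0, 2 * d] := by
  ext i j
  fin_cases i <;> fin_cases j <;> simp [rows, vec]

theorem gram_vec (a b c d : ℝ) (h : 4 * (a ^ 2 + b ^ 2 + c ^ 2) = 1) (hd : 4 * d ^ 2 = 1) :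
    rows (vec a b c d) * (rows (vec a b c d))ᵀ = 1 := by
  rw [rows_vec]
  ext i j
  fin_cases i <;> fin_cases j <;>
  simp [Matrix.mul_apply, Fin.sum_univ_succ] <;>
  linarith

theorem continuous_quat {α : Type*} [TopologicalSpace α] {f0 f1 f2 f3 : α → ℝ}
    (h0 : Continuous f0) (h1 : Continuous f1) (h2 : Continuous f2) (h3 : Continuous f3) :
    Continuous fun x => mkQ (f0 x) (f1 x) (f2 x) (f3 x) := by
  have e : (fun x => mkQ (f0 x) (f1 x) (f2 x) (f3 x)) = fun x =>
      f0 x • mkQ 1 0 0 0 + f1 x • mkQ 0 1 0 0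
        + f2 x • mkQ 0 0 1 0 + f3 x • mkQ 0 0 0 1 := by
    funext x
    apply Quaternion.ext <;> simp
  rw [e]
  fun_prop

theorem continuous_vec {α : Type*} [TopologicalSpace α] {f0 f1 f2 f3 : α → ℝ}
    (h0 : Continuous f0) (h1 : Continuous f1) (h2 : Continuous f2) (h3 : Continuous f3) :
    Continuous fun x => vec (f0 x) (f1 x) (f2 x) (f3 x) := by
  refine continuous_pi fun i => ?_
  fin_cases i
  · exact continuous_quat h0 continuous_const continuous_const continuous_const
  · exact continuous_quat h1 continuous_const continuous_const continuous_const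
  · exact continuous_quat h2 continuous_const continuous_const continuous_const
  · exact continuous_quat continuous_const h3 continuous_const continuous_const
  · exact continuous_quat continuous_const continuous_const h3 continuous_const
  · exact continuous_quat continuous_const continuous_const continuous_const h3

/-! ## Frames on the two hemispheres -/

/-- frame completing the unit vector `(a, b, c)`, for `c > -1` -/
def frameUp (a b c : ℝ) : Matrix (Fin 2) (Fin 6) ℝ :=
  !![1 - a ^ 2 / (1 + c), -(a * b) / (1 + c), -a, 0, 0, 0;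
     -(a * b) / (1 + c), 1 - b ^ 2 / (1 + c), -b, 0, 0, 0]

/-- frame completing the unit vector `(a, b, c)`, for `c < 1` -/
def frameDown (a b c : ℝ) : Matrix (Fin 2) (Fin 6) ℝ :=
  !![-(a * b) / (1 - c), 1 - b ^ 2 / (1 - c), b, 0, 0, 0;
     1 - a ^ 2 / (1 - c), -(a * b) / (1 - c), a, 0, 0, 0]

theorem frameUp_orth (a b c : ℝ) (h : a ^ 2 + b ^ 2 + c ^ 2 = 1) (hc : 1 + c ≠ 0) :
    frameUp a b c * (frameUp a b c)ᵀ = 1 := by
  ext i j
  fin_cases i <;> fin_cases j <;>
  simp [frameUp, Matrix.mul_apply, Fin.sum_univ_succ] <;>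
  field_simp
  · linear_combination (a ^ 2) * h
  · linear_combination (a * b) * h
  · linear_combination (a * b) * h
  · linear_combination (b ^ 2) * h

theorem frameDown_orth (a b c : ℝ) (h : a ^ 2 + b ^ 2 + c ^ 2 = 1) (hc : 1 - c ≠ 0) :
    frameDown a b c * (frameDown a b c)ᵀ = 1 := by
  ext i j
  fin_cases i <;> fin_cases j <;>
  simp [frameDown, Matrix.mul_apply, Fin.sum_univ_succ] <;>
  field_simp
  · linear_combination (b ^ 2) * h
  · linear_combination (a * b) * h
  · linear_combination (a * b) * h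
  · linear_combination (a ^ 2) * h

theorem rows_vec_half (a b c : ℝ) : rows (vec (a / 2) (b / 2) (c / 2) (1 / 2)) =
    !![a, b, c, 0, 0, 0;
       0, 0, 0, 1, 0, 0;
       0, 0, 0, 0, 1, 0;
       0, 0, 0, 0, 0, 1] := by
  rw [rows_vec]
  ext i j
  fin_cases i <;> fin_cases j <;> simp <;> ring

theorem frameUp_perp (a b c : ℝ) (h : a ^ 2 + b ^ 2 + c ^ 2 = 1) (hc : 1 + c ≠ 0) :
    rows (vec (a / 2) (b / 2) (c / 2) (1 / 2)) * (frameUp a b c)ᵀ = 0 := by
  rw [rows_vec_half]
  ext i j
  fin_cases i <;> fin_cases j <;>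
  simp [frameUp, Matrix.mul_apply, Fin.sum_univ_succ] <;>
  field_simp
  · linear_combination (-a) * h
  · linear_combination (-b) * h

theorem frameDown_perp (a b c : ℝ) (h : a ^ 2 + b ^ 2 + c ^ 2 = 1) (hc : 1 - c ≠ 0) :
    rows (vec (a / 2) (b / 2) (c / 2) (1 / 2)) * (frameDown a b c)ᵀ = 0 := by
  rw [rows_vec_half]
  ext i j
  fin_cases i <;> fin_cases j <;>
  simp [frameDown, Matrix.mul_apply, Fin.sum_univ_succ] <;>
  field_simp
  · linear_combination (-b) * h
  · linear_combination (-a) * h

theorem det_stack_aux (p q r s t u a b c : ℝ) :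
    (stack !![p, q, r, 0, 0, 0; s, t, u, 0, 0, 0]
      !![a, b, c, 0, 0, 0;
       0, 0, 0, 1, 0, 0;
       0, 0, 0, 0, 1, 0;
       0, 0, 0, 0, 0, 1]).det
      = p * (t * c - u * b) - q * (s * c - u * a) + r * (s * b - t * a) := by
  have h : stack !![p, q, r, 0, 0, 0; s, t, u, 0, 0, 0]
      !![a, b, c, 0, 0, 0;
       0, 0, 0, 1, 0, 0;
       0, 0, 0, 0, 1, 0;
       0, 0, 0, 0, 0, 1] = !![p, q, r, 0, 0, 0; s, t, u, 0, 0, 0; a, b, c, 0, 0, 0;
       0, 0, 0, 1, 0, 0;
       0, 0, 0, 0, 1, 0;
       0, 0, 0, 0, 0, 1] := by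
    ext i j
    fin_cases i <;> rfl
  rw [h]
  simp [Matrix.det_succ_row_zero, Fin.sum_univ_succ, Fin.succAbove]
  ring

theorem frameUp_det (a b c : ℝ) (h : a ^ 2 + b ^ 2 + c ^ 2 = 1) (hc : 1 + c ≠ 0) :
    (stack (frameUp a b c) (rows (vec (a / 2) (b / 2) (c / 2) (1 / 2)))).det = 1 := by
  rw [rows_vec_half, frameUp, det_stack_aux]
  field_simp
  linear_combination (1 + c) * h

theorem frameDown_det (a b c : ℝ) (h : a ^ 2 + b ^ 2 + c ^ 2 = 1) (hc : 1 - c ≠ 0) :
    (stack (frameDown a b c) (rows (vec (a / 2) (b / 2) (c / 2) (1 / 2)))).det = 1 := by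
  rw [rows_vec_half, frameDown, det_stack_aux]
  field_simp
  linear_combination (1 - c) * h

theorem gram_half (a b c : ℝ) (h : a ^ 2 + b ^ 2 + c ^ 2 = 1) :
    rows (vec (a / 2) (b / 2) (c / 2) (1 / 2)) *
      (rows (vec (a / 2) (b / 2) (c / 2) (1 / 2)))ᵀ = 1 :=
  gram_vec _ _ _ _ (by linear_combination h) (by norm_num)

theorem frameUp_lift (a b c : ℝ) (h : a ^ 2 + b ^ 2 + c ^ 2 = 1) (hc : 1 + c ≠ 0) :
    IsLift (frameVec (frameUp a b c)) (proj (rows (vec (a / 2) (b / 2) (c / 2) (1 / 2)))) :=
  isLift_of_frame _ _ (frameUp_orth a b c h hc) (frameUp_perp a b c h hc) (gram_half a b c h)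
    (frameUp_det a b c h hc)

theorem frameDown_lift (a b c : ℝ) (h : a ^ 2 + b ^ 2 + c ^ 2 = 1) (hc : 1 - c ≠ 0) :
    IsLift (frameVec (frameDown a b c)) (proj (rows (vec (a / 2) (b / 2) (c / 2) (1 / 2)))) :=
  isLift_of_frame _ _ (frameDown_orth a b c h hc) (frameDown_perp a b c h hc) (gram_half a b c h)
    (frameDown_det a b c h hc)

theorem transition_alg (a b : ℝ) (h : a ^ 2 + b ^ 2 = 1) :
    frameVec (frameUp a b 0) =
      (-Complex.I * ((a : ℂ) - b * Complex.I) ^ 2) • frameVec (frameDown a b 0) := by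
  funext j
  simp only [frameVec, Pi.smul_apply, smul_eq_mul]
  generalize (Real.sqrt 2)⁻¹ = K
  fin_cases j
  · simp only [frameUp, frameDown]
    apply Complex.ext
    · simp [sq]
      linear_combination (-K * (b * b + 1 + a * a - b * b)) * h
    · simp [sq]
      linear_combination (-K * (b * a - 2 * a * b)) * h
  · simp only [frameUp, frameDown]
    apply Complex.ext
    · simp [sq]
      linear_combination (-K * (a * b)) * h
    · simp [sq]
      linear_combination (K * (1 + b * b)) * h
  · simp only [frameUp, frameDown]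
    apply Complex.ext
    · simp [sq]
      linear_combination (K * a) * h
    · simp [sq]
      linear_combination (-K * b) * h
  · simp [frameUp, frameDown]
  · simp [frameUp, frameDown]
  · simp [frameUp, frameDown]

theorem E_shift (θ : ℝ) : E (-(Real.pi / 2) - 2 * θ) =
    -Complex.I * ((Real.cos θ : ℂ) - Real.sin θ * Complex.I) ^ 2 := by
  have h1 : E (-(Real.pi / 2)) = -Complex.I := by
    rw [E, show ((-(Real.pi / 2) : ℝ) : ℂ) * Complex.I = -((Real.pi : ℂ) / 2 * Complex.I) by
      push_cast; ring, Complex.exp_neg, Complex.exp_pi_div_two_mul_I]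
    simp
  have h2 : E (-θ) = (Real.cos θ : ℂ) - Real.sin θ * Complex.I := by
    rw [E, Complex.exp_mul_I]
    simp [Complex.cos_neg, Complex.sin_neg]
    ring
  rw [show -(Real.pi / 2) - 2 * θ = -(Real.pi / 2) + (-θ + -θ) by ring, E_add, E_add, h1, h2]
  ring

/-- transition on the equator -/
theorem transition (θ : ℝ) :
    frameVec (frameUp (Real.cos θ) (Real.sin θ) 0) =
      E (-(Real.pi / 2) - 2 * θ) • frameVec (frameDown (Real.cos θ) (Real.sin θ) 0) := by
  rw [E_shift]
  exact transition_alg _ _ (Real.cos_sq_add_sin_sq θ)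

/-! ## The simplices -/

/-- planar coordinates on the triangle -/
def r0 (t : stdSimplex ℝ (Fin 3)) : ℝ := t 0 - t 2
def r1 (t : stdSimplex ℝ (Fin 3)) : ℝ := t 1 - t 2
def hh (t : stdSimplex ℝ (Fin 3)) : ℝ := t 0 * t 1 * t 2
def rho (t : stdSimplex ℝ (Fin 3)) : ℝ := Real.sqrt (r0 t ^ 2 + r1 t ^ 2 + hh t ^ 2)

theorem continuous_coord {n : ℕ} (i : Fin n) : Continuous fun t : stdSimplex ℝ (Fin n) => t i :=
  (continuous_apply i).comp continuous_subtype_val

theorem continuous_r0 : Continuous r0 := (continuous_coord 0).sub (continuous_coord 2)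
theorem continuous_r1 : Continuous r1 := (continuous_coord 1).sub (continuous_coord 2)
theorem continuous_hh : Continuous hh :=
  ((continuous_coord 0).mul (continuous_coord 1)).mul (continuous_coord 2)
theorem continuous_rho : Continuous rho :=
  Real.continuous_sqrt.comp (((continuous_r0.pow 2).add (continuous_r1.pow 2)).add
    (continuous_hh.pow 2))

theorem rho_pos (t : stdSimplex ℝ (Fin 3)) : 0 < rho t := by
  refine Real.sqrt_pos.2 ?_
  by_contra hcon
  have a0 := sq_nonneg (r0 t)
  have a1 := sq_nonneg (r1 t)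
  have a2 := sq_nonneg (hh t)
  have b0 : r0 t = 0 := by
    have : r0 t ^ 2 = 0 := by linarith
    exact pow_eq_zero_iff (two_ne_zero) |>.1 this
  have b1 : r1 t = 0 := by
    have : r1 t ^ 2 = 0 := by linarith
    exact pow_eq_zero_iff (two_ne_zero) |>.1 this
  have b2 : hh t = 0 := by
    have : hh t ^ 2 = 0 := by linarith
    exact pow_eq_zero_iff (two_ne_zero) |>.1 this
  have hs := stdSimplex.sum_eq_one t
  rw [Fin.sum_univ_three] at hs
  unfold r0 at b0
  unfold r1 at b1
  unfold hh at b2
  have c0 : t 0 = 1 / 3 := by linarith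
  have c1 : t 1 = 1 / 3 := by linarith
  have c2 : t 2 = 1 / 3 := by linarith
  rw [c0, c1, c2] at b2
  norm_num at b2

theorem rho_sq (t : stdSimplex ℝ (Fin 3)) : rho t ^ 2 = r0 t ^ 2 + r1 t ^ 2 + hh t ^ 2 :=
  Real.sq_sqrt (by positivity)

/-- sign of a hemisphere -/
def sgn (b : Bool) : ℝ := if b then 1 else -1

theorem sgn_sq (b : Bool) : sgn b ^ 2 = 1 := by cases b <;> simp [sgn]

theorem unit_vec (b : Bool) (t : stdSimplex ℝ (Fin 3)) :
    (r0 t / rho t) ^ 2 + (r1 t / rho t) ^ 2 + (sgn b * hh t / rho t) ^ 2 = 1 := by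
  have h := rho_pos t
  have h2 := rho_sq t
  have h3 := sgn_sq b
  field_simp
  rw [h3]
  linarith

/-- point of the zero level -/
def fpt (b : Bool) (t : stdSimplex ℝ (Fin 3)) : ZeroLevel (diagSp 6) :=
  ⟨⟨vec ((r0 t / rho t) / 2) ((r1 t / rho t) / 2) ((sgn b * hh t / rho t) / 2) (1 / 2),
    norm_of_rows_gram _ (gram_half _ _ _ (unit_vec b t))⟩,
    moment_of_rows_gram _ (gram_half _ _ _ (unit_vec b t))⟩

theorem continuous_fpt (b : Bool) : Continuous (fpt b) := by
  have hr : ∀ t, rho t ≠ 0 := fun t => (rho_pos t).ne'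
  refine Continuous.subtype_mk (Continuous.subtype_mk (continuous_vec ?_ ?_ ?_ ?_) _) _
  · exact (continuous_r0.div continuous_rho hr).div_const 2
  · exact (continuous_r1.div continuous_rho hr).div_const 2
  · exact ((continuous_const.mul continuous_hh).div continuous_rho hr).div_const 2
  · exact continuous_const

/-- the two singular 2-simplices of the zero level -/
def fsimp (b : Bool) : SingSimplex 2 (ZeroLevel (diagSp 6)) := ⟨fpt b, continuous_fpt b⟩

theorem hh_face (i : Fin 3) (t : stdSimplex ℝ (Fin (1 + 1))) : hh (faceIncl 1 i t) = 0 := by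
  have h := face_self i t
  unfold hh
  fin_cases i
  · have h' : faceIncl 1 0 t 0 = 0 := h
    simp only [Fin.zero_eta]
    rw [h']; ring
  · have h' : faceIncl 1 1 t 1 = 0 := h
    simp only [Fin.mk_one]
    rw [h']; ring
  · have h' : faceIncl 1 2 t 2 = 0 := h
    simp only [Fin.reduceFinMk]
    rw [h']; ring

theorem fsimp_face (i : Fin 3) :
    (fsimp true).comp (faceIncl 1 i) = (fsimp false).comp (faceIncl 1 i) := by
  ext t : 1
  apply Subtype.ext
  apply Subtype.ext
  change vec _ _ _ _ = vec _ _ _ _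
  rw [hh_face]
  simp

/-! ## Lifts -/

theorem hh_nonneg (t : stdSimplex ℝ (Fin 3)) : 0 ≤ hh t := by
  unfold hh
  have h0 := stdSimplex.zero_le t 0
  have h1 := stdSimplex.zero_le t 1
  have h2 := stdSimplex.zero_le t 2
  positivity

theorem up_ne (t : stdSimplex ℝ (Fin 3)) : 1 + sgn true * hh t / rho t ≠ 0 := by
  have h1 := rho_pos t
  have h2 := hh_nonneg t
  have : 0 ≤ sgn true * hh t / rho t := by
    simp only [sgn, if_true, one_mul]
    positivity
  linarith

theorem down_ne (t : stdSimplex ℝ (Fin 3)) : 1 - sgn false * hh t / rho t ≠ 0 := by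
  have h1 := rho_pos t
  have h2 := hh_nonneg t
  have : 0 ≤ -(sgn false * hh t / rho t) := by
    simp only [sgn]
    have : (0:ℝ) ≤ hh t / rho t := by positivity
    simpa [neg_div] using this
  linarith

/-- lift on the upper hemisphere -/
def liftUp (t : stdSimplex ℝ (Fin 3)) : Fin 6 → ℂ :=
  frameVec (frameUp (r0 t / rho t) (r1 t / rho t) (sgn true * hh t / rho t))

/-- lift on the lower hemisphere -/
def liftDown (t : stdSimplex ℝ (Fin 3)) : Fin 6 → ℂ :=
  frameVec (frameDown (r0 t / rho t) (r1 t / rho t) (sgn false * hh t / rho t))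

theorem continuous_frameVec : Continuous frameVec := by
  refine continuous_pi fun a => ?_
  have h0 : Continuous fun V : Matrix (Fin 2) (Fin 6) ℝ => V 0 a := continuous_id.matrix_elem 0 a
  have h1 : Continuous fun V : Matrix (Fin 2) (Fin 6) ℝ => V 1 a := continuous_id.matrix_elem 1 a
  exact continuous_const.mul ((Complex.continuous_ofReal.comp h0).sub
    ((Complex.continuous_ofReal.comp h1).mul continuous_const))

theorem continuous_liftUp : Continuous liftUp := by
  have hr : ∀ t, rho t ≠ 0 := fun t => (rho_pos t).ne'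
  have ha : Continuous fun t => r0 t / rho t := continuous_r0.div continuous_rho hr
  have hb : Continuous fun t => r1 t / rho t := continuous_r1.div continuous_rho hr
  have hc : Continuous fun t => sgn true * hh t / rho t :=
    (continuous_const.mul continuous_hh).div continuous_rho hr
  have hc' : Continuous fun t => 1 + sgn true * hh t / rho t := continuous_const.add hc
  refine continuous_frameVec.comp (continuous_matrix fun i j => ?_)
  fin_cases i <;> fin_cases j
  · exact continuous_const.sub ((ha.pow 2).div hc' up_ne)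
  · exact ((ha.mul hb).neg).div hc' up_ne
  · exact ha.neg
  · exact continuous_const
  · exact continuous_const
  · exact continuous_const
  · exact ((ha.mul hb).neg).div hc' up_ne
  · exact continuous_const.sub ((hb.pow 2).div hc' up_ne)
  · exact hb.neg
  · exact continuous_const
  · exact continuous_const
  · exact continuous_const

theorem continuous_liftDown : Continuous liftDown := by
  have hr : ∀ t, rho t ≠ 0 := fun t => (rho_pos t).ne'
  have ha : Continuous fun t => r0 t / rho t := continuous_r0.div continuous_rho hr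
  have hb : Continuous fun t => r1 t / rho t := continuous_r1.div continuous_rho hr
  have hc : Continuous fun t => sgn false * hh t / rho t :=
    (continuous_const.mul continuous_hh).div continuous_rho hr
  have hc' : Continuous fun t => 1 - sgn false * hh t / rho t := continuous_const.sub hc
  refine continuous_frameVec.comp (continuous_matrix fun i j => ?_)
  fin_cases i <;> fin_cases j
  · exact ((ha.mul hb).neg).div hc' down_ne
  · exact continuous_const.sub ((hb.pow 2).div hc' down_ne)
  · exact hb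
  · exact continuous_const
  · exact continuous_const
  · exact continuous_const
  · exact continuous_const.sub ((ha.pow 2).div hc' down_ne)
  · exact ((ha.mul hb).neg).div hc' down_ne
  · exact ha
  · exact continuous_const
  · exact continuous_const
  · exact continuous_const

/-- quotient map to the reduction -/
def toRed : C(ZeroLevel (diagSp 6), Reduction (diagSp 6)) :=
  ⟨Quotient.mk _, continuous_quotient_mk'⟩

/-- the classifying map on the two simplices -/
def lsimp (b : Bool) : SingSimplex 2 (CLine 6) := lineMap.comp (toRed.comp (fsimp b))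

theorem lift_up (t : stdSimplex ℝ (Fin 3)) : IsLift (liftUp t) (lsimp true t).1 :=
  frameUp_lift _ _ _ (unit_vec true t) (up_ne t)

theorem lift_down (t : stdSimplex ℝ (Fin 3)) : IsLift (liftDown t) (lsimp false t).1 :=
  frameDown_lift _ _ _ (unit_vec false t) (down_ne t)

theorem lsimp_face (i : Fin 3) :
    (lsimp true).comp (faceIncl 1 i) = (lsimp false).comp (faceIncl 1 i) := by
  have h := fsimp_face i
  have h1 : ∀ b, (lsimp b).comp (faceIncl 1 i)
      = lineMap.comp (toRed.comp ((fsimp b).comp (faceIncl 1 i))) := fun b => rfl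
  rw [h1, h1, h]

/-! ## Angles -/

/-- complex coordinate along the edges, normalised to start at `1` -/
def gedge (i : Fin 3) (t : stdSimplex ℝ (Fin (1 + 1))) : ℂ :=
  ![((t 0 - t 1 : ℝ) : ℂ) + (t 1 : ℝ) * Complex.I,
    ((t 0 - t 1 : ℝ) : ℂ) - (t 1 : ℝ) * Complex.I,
    ((t 0 : ℝ) : ℂ) + (t 1 : ℝ) * Complex.I] i

/-- offset of the angle -/
def off (i : Fin 3) : ℝ := ![Real.pi / 2, 0, 0] i

theorem continuous_gedge (i : Fin 3) : Continuous (gedge i) := by
  have h0 : Continuous fun t : stdSimplex ℝ (Fin (1 + 1)) => t 0 := continuous_coord 0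
  have h1 : Continuous fun t : stdSimplex ℝ (Fin (1 + 1)) => t 1 := continuous_coord 1
  fin_cases i
  · exact (Complex.continuous_ofReal.comp (h0.sub h1)).add
      ((Complex.continuous_ofReal.comp h1).mul continuous_const)
  · exact (Complex.continuous_ofReal.comp (h0.sub h1)).sub
      ((Complex.continuous_ofReal.comp h1).mul continuous_const)
  · exact (Complex.continuous_ofReal.comp h0).add
      ((Complex.continuous_ofReal.comp h1).mul continuous_const)

theorem gedge_slit (i : Fin 3) (t : stdSimplex ℝ (Fin (1 + 1))) : gedge i t ∈ Complex.slitPlane := by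
  have hs := stdSimplex.add_eq_one t
  have h1 := stdSimplex.zero_le t 1
  rw [Complex.mem_slitPlane_iff]
  by_cases h : t 1 = 0
  · left
    have h0 : t 0 = 1 := by linarith
    fin_cases i <;> simp [gedge, h, h0]
  · right
    fin_cases i <;> simp [gedge, h]

/-- the angle along the edges -/
def ang (i : Fin 3) (t : stdSimplex ℝ (Fin (1 + 1))) : ℝ := off i + Complex.arg (gedge i t)

theorem continuous_ang (i : Fin 3) : Continuous (ang i) := by
  refine continuous_const.add ?_
  rw [continuous_iff_continuousAt]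
  intro t
  exact ContinuousAt.comp (f := gedge i) (Complex.continuousAt_arg (gedge_slit i t))
    (continuous_gedge i).continuousAt

end Pool.Agent.Work.MP_9a67bd_gt
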