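import Mathlib
import Pool.Agent.Work.MP_9a67bd_gt.Sphere

/-!
# The zero level of the diagonal `Sp(1)` on `ℍ^6` is path connected
-/

open scoped Quaternion Matrix
open Matrix

noncomputable section

namespace Pool.Agent.Work.MP_9a67bd_gt

/-- orthonormal 4-frames of `ℝ^6` -/
def Stf : Set (Matrix (Fin 4) (Fin 6) ℝ) := {Y | Y * Yᵀ = 1}

/-- reflection matrix -/
def refl (p : Fin 6 → ℝ) : Matrix (Fin 6) (Fin 6) ℝ := (2 : ℝ) • Matrix.vecMulVec p p - 1

theorem refl_transpose (p : Fin 6 → ℝ) : (refl p)ᵀ = refl p := by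
  unfold refl
  rw [Matrix.transpose_sub, Matrix.transpose_smul, Matrix.transpose_vecMulVec,
    Matrix.transpose_one]

theorem refl_sq (p : Fin 6 → ℝ) (hp : p ⬝ᵥ p = 1) : refl p * refl p = 1 := by
  have h : Matrix.vecMulVec p p * Matrix.vecMulVec p p = Matrix.vecMulVec p p := by
    rw [Matrix.vecMulVec_mul_vecMulVec, hp, one_smul]
  unfold refl
  rw [sub_mul, mul_sub, mul_sub, Matrix.smul_mul, Matrix.mul_smul, h]
  simp only [mul_one, one_mul]
  module

theorem vecMul_refl (v p : Fin 6 → ℝ) : v ᵥ* refl p = (2 * (v ⬝ᵥ p)) • p - v := by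
  funext i
  unfold refl
  rw [Matrix.vecMul_sub, Matrix.vecMul_one]
  simp only [Pi.sub_apply, Pi.smul_apply, smul_eq_mul, Matrix.vecMul, dotProduct,
    Matrix.smul_apply, Matrix.vecMulVec_apply]
  congr 1
  rw [Finset.mul_sum, Finset.sum_mul]
  exact Finset.sum_congr rfl fun j _ => by ring

theorem stf_mul (Y : Matrix (Fin 4) (Fin 6) ℝ) (hY : Y ∈ Stf) (p m : Fin 6 → ℝ)
    (hp : p ⬝ᵥ p = 1) (hm : m ⬝ᵥ m = 1) : Y * refl p * refl m ∈ Stf := by
  change Y * refl p * refl m * (Y * refl p * refl m)ᵀ = 1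
  rw [Matrix.transpose_mul, Matrix.transpose_mul, refl_transpose, refl_transpose]
  have h1 : Y * refl p * refl m * (refl m * (refl p * Yᵀ))
      = Y * (refl p * ((refl m * refl m) * (refl p * Yᵀ))) := by
    simp only [Matrix.mul_assoc]
  rw [h1, refl_sq m hm, Matrix.one_mul, ← Matrix.mul_assoc (refl p), refl_sq p hp, Matrix.one_mul]
  exact hY

/-- moving one vector of the frame -/
theorem move (Y : Matrix (Fin 4) (Fin 6) ℝ) (hY : Y ∈ Stf) (j : Fin 4) (q : Fin 6 → ℝ)
    (hq : q ⬝ᵥ q = 1) (hne : q ≠ -Y j) :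
    ∃ Y' ∈ Stf, JoinedIn Stf Y Y' ∧ Y' j = q ∧ ∀ i, i ≠ j → Y i ⬝ᵥ q = 0 → Y' i = Y i := by
  have hrow : ∀ i k, Y i ⬝ᵥ Y k = if i = k then 1 else 0 := by
    intro i k
    have h := congrFun (congrFun (show Y * Yᵀ = 1 from hY) i) k
    rw [Matrix.one_apply] at h
    rw [← h]
    rfl
  set p : Fin 6 → ℝ := Y j with hpdef
  have hp : p ⬝ᵥ p = 1 := by rw [hpdef, hrow]; simp
  set c : ℝ := p ⬝ᵥ q with hc
  have hc' : q ⬝ᵥ p = c := by rw [hc, dotProduct_comm]
  have hcpos : 0 < 1 + c := by
    have h1 : (p + q) ⬝ᵥ (p + q) = 2 + 2 * c := by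
      rw [add_dotProduct, dotProduct_add, dotProduct_add, hp, hq, hc', ← hc]; ring
    have h2 : 0 ≤ (p + q) ⬝ᵥ (p + q) := by
      simp only [dotProduct]
      exact Finset.sum_nonneg fun i _ => mul_self_nonneg _
    have h3 : (p + q) ⬝ᵥ (p + q) ≠ 0 := by
      intro h
      rw [dotProduct_self_eq_zero] at h
      exact hne (by rw [eq_neg_iff_add_eq_zero, add_comm]; exact h)
    have h4 := lt_of_le_of_ne h2 (Ne.symm h3)
    linarith
  let v : ℝ → Fin 6 → ℝ := fun s => (2 - s) • p + s • q
  let N : ℝ → ℝ := fun s => (2 - 2 * s) ^ 2 + 2 * s * (2 - s) * (1 + c)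
  have hvv : ∀ s, v s ⬝ᵥ v s = N s := by
    intro s
    simp only [v, N]
    rw [add_dotProduct, dotProduct_add, dotProduct_add]
    simp only [smul_dotProduct, dotProduct_smul, smul_eq_mul, hp, hq, hc', ← hc]
    ring
  have hN : ∀ s : unitInterval, 0 < N s := by
    intro s
    have h0 := s.2.1
    have h1 := s.2.2
    simp only [N]
    rcases eq_or_lt_of_le h0 with h | h
    · rw [← h]; norm_num
    · have : 0 < 2 * (s : ℝ) * (2 - s) * (1 + c) := by
        have : 0 < 2 - (s : ℝ) := by linarith
        positivity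
      positivity
  let m : unitInterval → Fin 6 → ℝ := fun s => (Real.sqrt (N s))⁻¹ • v s
  have hm : ∀ s, m s ⬝ᵥ m s = 1 := by
    intro s
    have h := hN s
    have hs : Real.sqrt (N s) * Real.sqrt (N s) = N s := Real.mul_self_sqrt h.le
    have hs' : Real.sqrt (N s) ≠ 0 := (Real.sqrt_pos.2 h).ne'
    simp only [m, smul_dotProduct, dotProduct_smul, smul_eq_mul, hvv]
    rw [← mul_assoc, ← mul_inv, hs]
    exact inv_mul_cancel₀ h.ne'
  have hNc : Continuous fun s : unitInterval => N s := by
    simp only [N]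
    fun_prop
  have hmc : Continuous m := by
    have h1 : Continuous fun s : unitInterval => (Real.sqrt (N s))⁻¹ :=
      Continuous.inv₀ (Real.continuous_sqrt.comp hNc) fun s => (Real.sqrt_pos.2 (hN s)).ne'
    have h2 : Continuous fun s : unitInterval => v s := by
      simp only [v]
      fun_prop
    exact h1.smul h2
  have hrc : Continuous fun s => refl (m s) := by
    unfold refl
    exact ((Continuous.matrix_vecMulVec hmc hmc).const_smul (2 : ℝ)).sub continuous_const
  have hm0 : m 0 = p := by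
    simp only [m, v, N]
    have : Real.sqrt ((2 - 2 * ((0 : unitInterval) : ℝ)) ^ 2
        + 2 * ((0 : unitInterval) : ℝ) * (2 - ((0 : unitInterval) : ℝ)) * (1 + c)) = 2 := by
      rw [show (2 - 2 * ((0 : unitInterval) : ℝ)) ^ 2
        + 2 * ((0 : unitInterval) : ℝ) * (2 - ((0 : unitInterval) : ℝ)) * (1 + c) = 2 ^ 2 by simp]
      exact Real.sqrt_sq (by norm_num)
    rw [this]
    simp [smul_smul]
  -- the path
  let γ : Path Y (Y * refl p * refl (m 1)) :=
    { toFun := fun s => Y * refl p * refl (m s)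
      continuous_toFun := continuous_const.matrix_mul hrc
      source' := by
        rw [hm0, Matrix.mul_assoc, refl_sq p hp, Matrix.mul_one]
      target' := rfl }
  have hrowmul : ∀ i, (Y * refl p * refl (m 1)) i = (Y i ᵥ* refl p) ᵥ* refl (m 1) := by
    intro i
    rw [Matrix.vecMul_vecMul, Matrix.mul_assoc]
    rfl
  have hN1 : N ((1 : unitInterval) : ℝ) = 2 * (1 + c) := by
    simp only [N, Set.Icc.coe_one]; ring
  have hv1 : v ((1 : unitInterval) : ℝ) = p + q := by
    simp only [v, Set.Icc.coe_one]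
    norm_num
  have hmm : ∀ w : Fin 6 → ℝ, (2 * (w ⬝ᵥ m 1)) • m 1
      = ((w ⬝ᵥ (p + q)) / (1 + c)) • (p + q) := by
    intro w
    have h := hN 1
    have hs : Real.sqrt (N ((1 : unitInterval) : ℝ)) * Real.sqrt (N ((1 : unitInterval) : ℝ))
      = 2 * (1 + c) := by rw [Real.mul_self_sqrt h.le, hN1]
    have hs' : Real.sqrt (N ((1 : unitInterval) : ℝ)) ≠ 0 := (Real.sqrt_pos.2 h).ne'
    simp only [m, hv1, dotProduct_smul, smul_eq_mul, smul_smul]
    congr 1
    field_simp
    rw [sq, hs]
    ring
  refine ⟨_, stf_mul Y hY p (m 1) hp (hm 1), ⟨γ, fun s => stf_mul Y hY p (m s) hp (hm s)⟩, ?_, ?_⟩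
  · rw [hrowmul, vecMul_refl, vecMul_refl, ← hpdef, hp]
    have e1 : (2 * (1 : ℝ)) • p - p = p := by module
    rw [e1, hmm, dotProduct_add, hp, ← hc, div_self hcpos.ne']
    module
  · intro i hij hi
    have h1 : Y i ⬝ᵥ p = 0 := by rw [hpdef, hrow, if_neg hij]
    rw [hrowmul, vecMul_refl, vecMul_refl, h1]
    have e1 : (2 * (0 : ℝ)) • p - Y i = -Y i := by module
    rw [e1, hmm, neg_dotProduct, dotProduct_add, h1, hi]
    module

/-- the standard frame -/
def stdF : Matrix (Fin 4) (Fin 6) ℝ := Matrix.of fun i => Pi.single (Fin.castLE (by norm_num) i) 1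

theorem stdF_row (i : Fin 4) : stdF i = Pi.single (Fin.castLE (by norm_num) i) 1 := rfl

theorem single_dot (a b : Fin 6) :
    (Pi.single a 1 : Fin 6 → ℝ) ⬝ᵥ Pi.single b 1 = if a = b then 1 else 0 := by
  rw [single_dotProduct, one_mul, Pi.single_apply]

theorem join_std (k : ℕ) : ∀ Y ∈ Stf, (∀ i : Fin 4, (i : ℕ) < 4 - k → Y i = stdF i) →
    k ≤ 4 → JoinedIn Stf Y stdF := by
  induction k with
  | zero =>
    intro Y hY h _
    have : Y = stdF := by
      funext i
      exact h i (by simp)
    rw [this] at hY ⊢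
    exact JoinedIn.refl hY
  | succ k ih =>
    intro Y hY h hk
    -- `j` is the index to be matched
    let j : Fin 4 := ⟨4 - (k + 1), by omega⟩
    have hj : (j : ℕ) = 4 - (k + 1) := rfl
    have hgood : ∀ Z ∈ Stf, (∀ i : Fin 4, (i : ℕ) < 4 - (k + 1) → Z i = stdF i) →
        stdF j ≠ -Z j → JoinedIn Stf Z stdF := by
      intro Z hZ hZ' hne
      have hqq : stdF j ⬝ᵥ stdF j = 1 := by
        rw [stdF_row, single_dot]; simp
      obtain ⟨Z', hZ'mem, hjoin, hZj, hZi⟩ := move Z hZ j (stdF j) hqq hne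
      refine hjoin.trans (ih Z' hZ'mem ?_ (by omega))
      intro i hi
      by_cases hij : i = j
      · rw [hij]; exact hZj
      · have hlt : (i : ℕ) < 4 - (k + 1) := by
          have : (i : ℕ) ≠ j := fun hh => hij (Fin.ext hh)
          omega
        have hperp : Z i ⬝ᵥ stdF j = 0 := by
          rw [hZ' i hlt, stdF_row, stdF_row, single_dot, if_neg]
          intro hh
          exact hij (Fin.castLE_injective _ hh)
        rw [hZi i hij hperp, hZ' i hlt]
    by_cases hne : stdF j = -Y j
    · -- move first to the last basis vector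
      let q : Fin 6 → ℝ := Pi.single 5 1
      have hqq : q ⬝ᵥ q = 1 := by
        simp only [q]
        rw [single_dot]; simp
      have hj5 : (Fin.castLE (by norm_num) j : Fin 6) ≠ 5 := by
        intro hh
        have := congrArg Fin.val hh
        simp only [Fin.val_castLE] at this
        have h5 : ((5 : Fin 6) : ℕ) = 5 := rfl
        omega
      have hq : q ≠ -Y j := by
        rw [← hne]
        intro hh
        have := congrFun hh 5
        simp only [q, stdF, Matrix.of_apply, Pi.single_eq_same] at this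
        rw [Pi.single_apply, if_neg (Ne.symm hj5)] at this
        exact one_ne_zero this
      obtain ⟨Z, hZmem, hjoin, hZj, hZi⟩ := move Y hY j q hqq hq
      refine hjoin.trans (hgood Z hZmem ?_ ?_)
      · intro i hi
        have hij : i ≠ j := by
          intro hh
          rw [hh] at hi
          omega
        have hperp : Y i ⬝ᵥ q = 0 := by
          rw [h i hi, stdF_row, single_dot, if_neg]
          intro hh
          have := congrArg Fin.val hh
          simp only [Fin.val_castLE] at this
          have h5 : ((5 : Fin 6) : ℕ) = 5 := rfl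
          omega
        rw [hZi i hij hperp, h i hi]
      · rw [hZj]
        intro hh
        have := congrFun hh 5
        simp only [q, stdF, Matrix.of_apply, Pi.neg_apply, Pi.single_eq_same] at this
        rw [Pi.single_apply, if_neg (Ne.symm hj5)] at this
        norm_num at this
    · exact hgood Y hY h hne

theorem isPathConnected_stf : IsPathConnected Stf := by
  refine ⟨stdF, ?_, ?_⟩
  · ext i j
    rw [Matrix.mul_apply]
    have := single_dot (Fin.castLE (by norm_num) i) (Fin.castLE (by norm_num) j)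
    simp only [dotProduct] at this
    simp only [stdF, Matrix.transpose_apply, Matrix.of_apply]
    rw [this, Matrix.one_apply]
    simp only [(Fin.castLE_injective (show 4 ≤ 6 by norm_num)).eq_iff]
  · intro Y hY
    exact (join_std 4 Y hY (fun i hi => absurd hi (by simp)) le_rfl).symm

/-- the point with given coordinate rows -/
def ofRows (Y : Matrix (Fin 4) (Fin 6) ℝ) : Fin 6 → ℍ[ℝ] :=
  fun a => mkQ (Y 0 a / 2) (Y 1 a / 2) (Y 2 a / 2) (Y 3 a / 2)

theorem rows_ofRows (Y : Matrix (Fin 4) (Fin 6) ℝ) : rows (ofRows Y) = Y := by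
  ext i a
  fin_cases i <;> simp [rows, ofRows] <;> ring

theorem ofRows_rows (x : Fin 6 → ℍ[ℝ]) : ofRows (rows x) = x := by
  funext a
  apply Quaternion.ext <;> simp [rows, ofRows]

/-- the homeomorphism onto the zero level (as a continuous surjection) -/
def stfMap (Y : Stf) : ZeroLevel (diagSp 6) :=
  ⟨⟨ofRows Y.1, norm_of_rows_gram _ (by rw [rows_ofRows]; exact Y.2)⟩,
    moment_of_rows_gram _ (by rw [rows_ofRows]; exact Y.2)⟩

theorem continuous_stfMap : Continuous stfMap := by
  refine Continuous.subtype_mk (Continuous.subtype_mk (continuous_pi fun a => ?_) _) _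
  have h : ∀ i, Continuous fun Y : Stf => Y.1 i a / 2 := fun i =>
    (continuous_subtype_val.matrix_elem i a).div_const 2
  exact continuous_quat (h 0) (h 1) (h 2) (h 3)

theorem surjective_stfMap : Function.Surjective stfMap := by
  intro x
  refine ⟨⟨rows x.1.1, rows_gram x⟩, ?_⟩
  apply Subtype.ext
  apply Subtype.ext
  exact ofRows_rows x.1.1

instance pathConnected_zeroLevel : PathConnectedSpace (ZeroLevel (diagSp 6)) := by
  have : PathConnectedSpace Stf := isPathConnected_iff_pathConnectedSpace.1 isPathConnected_stf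
  exact surjective_stfMap.pathConnectedSpace continuous_stfMap

instance pathConnected_reduction : PathConnectedSpace (Reduction (diagSp 6)) :=
  Quotient.mk_surjective.pathConnectedSpace continuous_quotient_mk'

end Pool.Agent.Work.MP_9a67bd_gt
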