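import Mathlib
import Pool.Agent.Work.MP_9a67bd_gt.Sphere

open scoped Quaternion Matrix

noncomputable section

namespace Pool.Agent.Work.MP_9a67bd_gt

theorem face_coords0 (t : stdSimplex ℝ (Fin (1 + 1))) :
    faceIncl 1 0 t 0 = 0 ∧ faceIncl 1 0 t 1 = t 0 ∧ faceIncl 1 0 t 2 = t 1 :=
  ⟨face_self 0 t, face_succAbove 0 t 0, face_succAbove 0 t 1⟩

theorem face_coords1 (t : stdSimplex ℝ (Fin (1 + 1))) :
    faceIncl 1 1 t 0 = t 0 ∧ faceIncl 1 1 t 1 = 0 ∧ faceIncl 1 1 t 2 = t 1 :=
  ⟨face_succAbove 1 t 0, face_self 1 t, face_succAbove 1 t 1⟩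

theorem face_coords2 (t : stdSimplex ℝ (Fin (1 + 1))) :
    faceIncl 1 2 t 0 = t 0 ∧ faceIncl 1 2 t 1 = t 1 ∧ faceIncl 1 2 t 2 = 0 :=
  ⟨face_succAbove 2 t 0, face_succAbove 2 t 1, face_self 2 t⟩

theorem E_off (i : Fin 3) : E (off i) = ![Complex.I, 1, 1] i := by
  fin_cases i
  · simp only [off, Fin.zero_eta, Matrix.cons_val_zero]
    rw [E, show ((Real.pi / 2 : ℝ) : ℂ) * Complex.I = (Real.pi : ℂ) / 2 * Complex.I by
      push_cast; ring, Complex.exp_pi_div_two_mul_I]
  · simp [off, E]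
  · simp [off, E]

theorem z_eq (i : Fin 3) (t : stdSimplex ℝ (Fin (1 + 1))) :
    (r0 (faceIncl 1 i t) : ℂ) + (r1 (faceIncl 1 i t) : ℝ) * Complex.I
      = E (off i) * gedge i t := by
  rw [E_off]
  fin_cases i
  · obtain ⟨h0, h1, h2⟩ := face_coords0 t
    simp only [r0, r1, gedge, Fin.zero_eta, Matrix.cons_val_zero, h0, h1, h2]
    push_cast
    linear_combination (-(t 1 : ℂ)) * Complex.I_sq
  · obtain ⟨h0, h1, h2⟩ := face_coords1 t
    simp only [r0, r1, gedge, Fin.mk_one, Matrix.cons_val_one, Matrix.cons_val_zero, h0, h1, h2]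
    push_cast
    ring
  · obtain ⟨h0, h1, h2⟩ := face_coords2 t
    have e : (⟨2, by omega⟩ : Fin 3) = 2 := rfl
    simp only [e, r0, r1, gedge, Matrix.cons_val, h0, h1, h2]
    push_cast
    ring

theorem norm_z (i : Fin 3) (t : stdSimplex ℝ (Fin (1 + 1))) :
    ‖gedge i t‖ = rho (faceIncl 1 i t) := by
  have h1 : ‖(r0 (faceIncl 1 i t) : ℂ) + (r1 (faceIncl 1 i t) : ℝ) * Complex.I‖ = ‖gedge i t‖ := by
    rw [z_eq, norm_mul, norm_E, one_mul]
  rw [← h1, Complex.norm_add_mul_I, rho, hh_face]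
  congr 1
  ring

theorem E_ang (i : Fin 3) (t : stdSimplex ℝ (Fin (1 + 1))) :
    E (ang i t) = ((r0 (faceIncl 1 i t) / rho (faceIncl 1 i t) : ℝ) : ℂ)
      + ((r1 (faceIncl 1 i t) / rho (faceIncl 1 i t) : ℝ) : ℂ) * Complex.I := by
  have hr : (rho (faceIncl 1 i t) : ℂ) ≠ 0 := by
    exact_mod_cast (rho_pos (faceIncl 1 i t)).ne'
  have h1 : E (Complex.arg (gedge i t)) * rho (faceIncl 1 i t) = gedge i t := by
    rw [← norm_z, mul_comm]
    exact Complex.norm_mul_exp_arg_mul_I _
  rw [ang, E_add]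
  push_cast
  field_simp
  rw [mul_assoc, h1, ← z_eq]

theorem cos_ang (i : Fin 3) (t : stdSimplex ℝ (Fin (1 + 1))) :
    Real.cos (ang i t) = r0 (faceIncl 1 i t) / rho (faceIncl 1 i t) := by
  have h := congrArg Complex.re (E_ang i t)
  rw [E, Complex.exp_ofReal_mul_I_re] at h
  rw [h]
  simp

theorem sin_ang (i : Fin 3) (t : stdSimplex ℝ (Fin (1 + 1))) :
    Real.sin (ang i t) = r1 (faceIncl 1 i t) / rho (faceIncl 1 i t) := by
  have h := congrArg Complex.im (E_ang i t)
  rw [E, Complex.exp_ofReal_mul_I_im] at h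
  rw [h]
  simp

/-- transition angle -/
def psi (i : Fin 3) : C(stdSimplex ℝ (Fin (1 + 1)), ℝ) :=
  ⟨fun t => -(Real.pi / 2) - 2 * ang i t, continuous_const.sub (continuous_const.mul (continuous_ang i))⟩

theorem lift_transition (i : Fin 3) (t : stdSimplex ℝ (Fin (1 + 1))) :
    liftUp (faceIncl 1 i t) = E (psi i t) • liftDown (faceIncl 1 i t) := by
  have h := transition (ang i t)
  rw [cos_ang, sin_ang] at h
  unfold liftUp liftDown
  rw [hh_face, mul_zero, mul_zero, zero_div]
  exact h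

theorem total_psi : total psi ≠ 0 := by
  have hv : ∀ i, ang i (vtx 0) = off i := by
    intro i
    unfold ang gedge
    fin_cases i <;> simp
  have h0 : ang 0 (vtx 1) = off 0 + Complex.arg (-1 + Complex.I) := by
    unfold ang gedge; simp
  have h1 : ang 1 (vtx 1) = off 1 + Complex.arg (-1 - Complex.I) := by
    unfold ang gedge; simp
  have h2 : ang 2 (vtx 1) = off 2 + Real.pi / 2 := by
    unfold ang gedge; simp
  have p0 : 0 ≤ Complex.arg (-1 + Complex.I) := by
    rw [Complex.arg_nonneg_iff]; simp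
  have p1 : Complex.arg (-1 - Complex.I) < 0 := by
    rw [Complex.arg_neg_iff]; simp
  have hpi := Real.pi_pos
  unfold total
  rw [Fin.sum_univ_three]
  have e : ∀ i t, psi i t = -(Real.pi / 2) - 2 * ang i t := fun i t => rfl
  simp only [e, hv, h0, h1, h2]
  intro hcon
  norm_num at hcon
  linarith

/-- The Chern numbers of the two simplices differ. -/
theorem chern_ne : chern (lsimp true) - chern (lsimp false) ≠ 0 := by
  intro hcon
  have h := chern_sub (lsimp true) (lsimp false) lsimp_face ⟨liftUp, continuous_liftUp⟩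
    ⟨liftDown, continuous_liftDown⟩ lift_up lift_down psi lift_transition
  have h2 : ((chern (lsimp true) : ℝ) - (chern (lsimp false) : ℝ)) = 0 := by
    exact_mod_cast hcon
  rw [h2, mul_zero] at h
  exact total_psi h.symm

/-! ## The bounding 3-chain in the sphere -/

def s0 (t : stdSimplex ℝ (Fin 4)) : ℝ := t 1 - t 3
def s1 (t : stdSimplex ℝ (Fin 4)) : ℝ := t 2 - t 3
def sh (t : stdSimplex ℝ (Fin 4)) : ℝ := t 1 * t 2 * t 3
def srho (t : stdSimplex ℝ (Fin 4)) : ℝ := Real.sqrt (s0 t ^ 2 + s1 t ^ 2 + sh t ^ 2)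
def stau (t : stdSimplex ℝ (Fin 4)) : ℝ := srho t + t 0
def sn (t : stdSimplex ℝ (Fin 4)) : ℝ := Real.sqrt (srho t ^ 2 + 3 * stau t ^ 2)

theorem continuous_s0 : Continuous s0 := (continuous_coord 1).sub (continuous_coord 3)
theorem continuous_s1 : Continuous s1 := (continuous_coord 2).sub (continuous_coord 3)
theorem continuous_sh : Continuous sh :=
  ((continuous_coord 1).mul (continuous_coord 2)).mul (continuous_coord 3)
theorem continuous_srho : Continuous srho :=
  Real.continuous_sqrt.comp (((continuous_s0.pow 2).add (continuous_s1.pow 2)).add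
    (continuous_sh.pow 2))
theorem continuous_stau : Continuous stau := continuous_srho.add (continuous_coord 0)
theorem continuous_sn : Continuous sn :=
  Real.continuous_sqrt.comp ((continuous_srho.pow 2).add
    (continuous_const.mul (continuous_stau.pow 2)))

theorem srho_sq (t : stdSimplex ℝ (Fin 4)) : srho t ^ 2 = s0 t ^ 2 + s1 t ^ 2 + sh t ^ 2 :=
  Real.sq_sqrt (by positivity)

theorem stau_pos (t : stdSimplex ℝ (Fin 4)) : 0 < stau t := by
  have g0 := stdSimplex.zero_le t 0
  have hr : 0 ≤ srho t := Real.sqrt_nonneg _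
  have hs := stdSimplex.sum_eq_one t
  rw [Fin.sum_univ_four] at hs
  unfold stau
  by_contra hcon
  have h0 : t 0 = 0 := by linarith
  have hr0 : srho t = 0 := by linarith
  have hsq := srho_sq t
  rw [hr0] at hsq
  have a0 := sq_nonneg (s0 t)
  have a1 := sq_nonneg (s1 t)
  have a2 := sq_nonneg (sh t)
  have b0 : s0 t = 0 := by
    have : s0 t ^ 2 = 0 := by linarith
    exact pow_eq_zero_iff (two_ne_zero) |>.1 this
  have b1 : s1 t = 0 := by
    have : s1 t ^ 2 = 0 := by linarith
    exact pow_eq_zero_iff (two_ne_zero) |>.1 this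
  have b2 : sh t = 0 := by
    have : sh t ^ 2 = 0 := by linarith
    exact pow_eq_zero_iff (two_ne_zero) |>.1 this
  unfold s0 at b0
  unfold s1 at b1
  unfold sh at b2
  have c0 : t 1 = 1 / 3 := by linarith
  have c1 : t 2 = 1 / 3 := by linarith
  have c2 : t 3 = 1 / 3 := by linarith
  rw [c0, c1, c2] at b2
  norm_num at b2

theorem sn_pos (t : stdSimplex ℝ (Fin 4)) : 0 < sn t := by
  have := stau_pos t
  exact Real.sqrt_pos.2 (by positivity)

theorem sn_sq (t : stdSimplex ℝ (Fin 4)) : sn t ^ 2 = srho t ^ 2 + 3 * stau t ^ 2 :=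
  Real.sq_sqrt (by positivity)

/-- point of the sphere -/
def wpt (b : Bool) (t : stdSimplex ℝ (Fin 4)) : QSphere 6 :=
  ⟨vec (s0 t / sn t) (s1 t / sn t) (sgn b * sh t / sn t) (stau t / sn t), by
    rw [norm_vec]
    have h1 := sn_pos t
    have h2 := sn_sq t
    have h3 := srho_sq t
    have h4 := sgn_sq b
    field_simp
    rw [h4]
    linarith⟩

theorem continuous_wpt (b : Bool) : Continuous (wpt b) := by
  have hr : ∀ t, sn t ≠ 0 := fun t => (sn_pos t).ne'
  refine Continuous.subtype_mk (continuous_vec ?_ ?_ ?_ ?_) _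
  · exact continuous_s0.div continuous_sn hr
  · exact continuous_s1.div continuous_sn hr
  · exact (continuous_const.mul continuous_sh).div continuous_sn hr
  · exact continuous_stau.div continuous_sn hr

def wsimp (b : Bool) : SingSimplex 3 (QSphere 6) := ⟨wpt b, continuous_wpt b⟩

theorem wsimp_face_succ (i : Fin 4) (hi : i ≠ 0) :
    (wsimp true).comp (faceIncl 2 i) = (wsimp false).comp (faceIncl 2 i) := by
  have hz : ∀ t, sh (faceIncl 2 i t) = 0 := by
    intro t
    have h := face_self i t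
    unfold sh
    have : i = 1 ∨ i = 2 ∨ i = 3 := by
      fin_cases i <;> simp_all
    rcases this with rfl | rfl | rfl
    · rw [h]; ring
    · rw [h]; ring
    · rw [h]; ring
  ext t : 1
  apply Subtype.ext
  change vec _ _ _ _ = vec _ _ _ _
  rw [hz]
  simp

/-- inclusion of the zero level in the sphere -/
def inclS : C(ZeroLevel (diagSp 6), QSphere 6) := ⟨Subtype.val, continuous_subtype_val⟩

theorem wsimp_face_zero (b : Bool) :
    (wsimp b).comp (faceIncl 2 0) = inclS.comp (fsimp b) := by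
  ext t : 1
  apply Subtype.ext
  have c0 : faceIncl 2 0 t 0 = 0 := face_self 0 t
  have c1 : faceIncl 2 0 t 1 = t 0 := face_succAbove 0 t 0
  have c2 : faceIncl 2 0 t 2 = t 1 := face_succAbove 0 t 1
  have c3 : faceIncl 2 0 t 3 = t 2 := face_succAbove 0 t 2
  have e0 : s0 (faceIncl 2 0 t) = r0 t := by unfold s0 r0; rw [c1, c3]
  have e1 : s1 (faceIncl 2 0 t) = r1 t := by unfold s1 r1; rw [c2, c3]
  have eh : sh (faceIncl 2 0 t) = hh t := by unfold sh hh; rw [c1, c2, c3]
  have er : srho (faceIncl 2 0 t) = rho t := by unfold srho rho; rw [e0, e1, eh]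
  have et : stau (faceIncl 2 0 t) = rho t := by unfold stau; rw [er, c0, add_zero]
  have en : sn (faceIncl 2 0 t) = 2 * rho t := by
    unfold sn
    rw [er, et, show rho t ^ 2 + 3 * rho t ^ 2 = (2 * rho t) ^ 2 by ring]
    exact Real.sqrt_sq (by linarith [rho_pos t])
  change vec _ _ _ _ = vec _ _ _ _
  rw [e0, e1, eh, et, en]
  have hr := (rho_pos t).ne'
  congr 1
  · field_simp
  · field_simp
  · field_simp
  · field_simp

end Pool.Agent.Work.MP_9a67bd_gt
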