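import Mathlib
import Pool.Agent.Work.MP_9a67bd_gt.Sphere2

/-!
# The Kirwan map of the diagonal `Sp(1) ⊂ Sp(6)` is not onto in degree two
-/

open scoped Quaternion Matrix

noncomputable section

namespace Pool.Agent.Work.MP_9a67bd_gt

universe u

section

variable (K : Type) [Field K]

/-- the Chern cochain of the reduction, with coefficients in `K` -/
def cK : Cochain K 2 (Reduction (diagSp 6)) := fun σ => (chern (lineMap.comp σ) : K)

theorem cK_mem : cK K ∈ cocycles K 2 (Reduction (diagSp 6)) := by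
  change coboundary K 2 _ (cK K) = 0
  funext ρ
  have h := chern_cocycle (lineMap.comp ρ)
  have h2 : ((∑ j : Fin 4, (-1 : ℤ) ^ (j : ℕ) *
      chern ((lineMap.comp ρ).comp (faceIncl 2 j)) : ℤ) : K) = 0 := by
    rw [h]; simp
  push_cast at h2
  exact h2

variable {E : Type u} [TopologicalSpace E] [MulAction (diagSp 6) E] (e₀ : E)

/-- inclusion of the fibre -/
def iotaN : C(ZeroLevel (diagSp 6), BorelZero (diagSp 6) E) :=
  ⟨fun x => Quotient.mk _ (e₀, x), continuous_quotient_mk'.comp (by fun_prop)⟩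

/-- inclusion of the fibre -/
def iotaS : C(QSphere 6, BorelSphere (diagSp 6) E) :=
  ⟨fun x => Quotient.mk _ (e₀, x), continuous_quotient_mk'.comp (by fun_prop)⟩

theorem incl_iota : (borelIncl (diagSp 6) E).comp (iotaN e₀) = (iotaS e₀).comp inclS := rfl

theorem proj_iota : (borelProj (diagSp 6) E).comp (iotaN e₀) = toRed := rfl

/-- the two 2-simplices in the Borel construction -/
def Fs (b : Bool) : SingSimplex 2 (BorelZero (diagSp 6) E) := (iotaN e₀).comp (fsimp b)

theorem coboundary_Fs (β : Cochain K 1 (BorelZero (diagSp 6) E)) :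
    coboundary K 1 _ β (Fs e₀ true) = coboundary K 1 _ β (Fs e₀ false) := by
  have h : ∀ (b : Bool) (i : Fin 3), (Fs e₀ b).comp (faceIncl 1 i)
      = (iotaN e₀).comp ((fsimp b).comp (faceIncl 1 i)) := fun b i => rfl
  have h1 : ∀ b : Bool, coboundary K 1 _ β (Fs e₀ b)
      = ∑ i : Fin 3, (-1 : K) ^ (i : ℕ) * β ((iotaN e₀).comp ((fsimp b).comp (faceIncl 1 i))) :=
    fun b => rfl
  rw [h1, h1]
  refine Finset.sum_congr rfl fun i _ => ?_
  rw [fsimp_face]

theorem cocycle_Fs (α : Cochain K 2 (BorelSphere (diagSp 6) E))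
    (hα : α ∈ cocycles K 2 (BorelSphere (diagSp 6) E)) :
    Cochain.pull K 2 (borelIncl (diagSp 6) E) α (Fs e₀ true)
      = Cochain.pull K 2 (borelIncl (diagSp 6) E) α (Fs e₀ false) := by
  have h1 : ∀ b, Cochain.pull K 2 (borelIncl (diagSp 6) E) α (Fs e₀ b)
      = α (((iotaS e₀).comp (wsimp b)).comp (faceIncl 2 0)) := by
    intro b
    have e : (borelIncl (diagSp 6) E).comp (Fs e₀ b)
        = ((iotaS e₀).comp (wsimp b)).comp (faceIncl 2 0) := by
      rw [ContinuousMap.comp_assoc, wsimp_face_zero]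
      rfl
    change α _ = _
    rw [e]
  have h2 : ∀ b, coboundary K 2 _ α ((iotaS e₀).comp (wsimp b)) = 0 := by
    intro b
    have h3 : coboundary K 2 _ α = 0 := hα
    rw [h3]; rfl
  have h4 : ∀ b, ∑ i : Fin 4, (-1 : K) ^ (i : ℕ) *
      α (((iotaS e₀).comp (wsimp b)).comp (faceIncl 2 i)) = 0 := h2
  have h5 : ∀ i : Fin 3, α (((iotaS e₀).comp (wsimp true)).comp (faceIncl 2 i.succ))
      = α (((iotaS e₀).comp (wsimp false)).comp (faceIncl 2 i.succ)) := by
    intro i
    rw [ContinuousMap.comp_assoc, ContinuousMap.comp_assoc,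
      wsimp_face_succ i.succ (Fin.succ_ne_zero i)]
  have ht := h4 true
  have hf := h4 false
  rw [Fin.sum_univ_succ] at ht hf
  simp only [h5] at ht
  rw [h1, h1]
  have h6 := ht.trans hf.symm
  have h7 := add_right_cancel h6
  simpa using h7

theorem cK_Fs (b : Bool) :
    Cochain.pull K 2 (borelProj (diagSp 6) E) (cK K) (Fs e₀ b) = (chern (lsimp b) : K) := rfl

end

/-- The Kirwan map is not onto in degree two. -/
theorem not_kirwanOnto (K : Type) [Field K] [CharZero K] (E : Type u) [TopologicalSpace E]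
    [MulAction (diagSp 6) E] [Nonempty E] : ¬ KirwanOnto (diagSp 6) E K 2 := by
  intro hK
  obtain ⟨e₀⟩ := ‹Nonempty E›
  obtain ⟨a, ha⟩ := hK (Submodule.Quotient.mk ⟨cK K, cK_mem K⟩)
  obtain ⟨⟨α, hα⟩, rfl⟩ := Submodule.Quotient.mk_surjective _ a
  have h1 : (Submodule.Quotient.mk (cocyclesMap K 2 (borelIncl (diagSp 6) E) ⟨α, hα⟩) :
      Cohomology K 2 (BorelZero (diagSp 6) E))
      = Submodule.Quotient.mk (cocyclesMap K 2 (borelProj (diagSp 6) E) ⟨cK K, cK_mem K⟩) := ha
  rw [Submodule.Quotient.eq] at h1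
  obtain ⟨β, hβ⟩ := h1
  have h2 : coboundary K 1 _ β = Cochain.pull K 2 (borelIncl (diagSp 6) E) α
      - Cochain.pull K 2 (borelProj (diagSp 6) E) (cK K) := hβ
  have h3 := congrFun h2 (Fs e₀ true)
  have h4 := congrFun h2 (Fs e₀ false)
  rw [coboundary_Fs] at h3
  rw [h3] at h4
  simp only [Pi.sub_apply] at h4
  rw [cocycle_Fs K e₀ α hα, cK_Fs, cK_Fs] at h4
  have h5 : (chern (lsimp true) : K) = (chern (lsimp false) : K) := by
    exact sub_right_injective h4
  have h6 : chern (lsimp true) = chern (lsimp false) := by exact_mod_cast h5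
  exact chern_ne (sub_eq_zero.2 h6)

end Pool.Agent.Work.MP_9a67bd_gt

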