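import Mathlib

/-!
# The 3-Sasakian Kirwan map: definitions used in the statement

* singular cohomology classes of a topological space with coefficients in a field `K`;
* the group `Sp(m)` of quaternionic unitary matrices acting on the unit sphere of `ℍ^m`;
* the Lie algebra of a subgroup, the 3-Sasakian moment map, its zero level `N`, the reduction `N/G`;
* the Borel construction and surjectivity of the 3-Sasakian Kirwan map.
-/

open scoped Quaternion

noncomputable section

namespace Pool.Agent.Work.MP_9a67bd_gt.Official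

universe u v

/-! ## Singular cohomology -/

/-- The standard topological `k`-simplex. -/
def Simplex (k : ℕ) : Type := stdSimplex ℝ (Fin (k + 1))

instance (k : ℕ) : TopologicalSpace (Simplex k) := instTopologicalSpaceSubtype

/-- The `i`-th face inclusion `Δ^k → Δ^{k+1}` (the affine map on vertices missing the vertex `i`). -/
def face (k : ℕ) (i : Fin (k + 2)) : C(Simplex k, Simplex (k + 1)) :=
  ⟨stdSimplex.map i.succAbove, stdSimplex.continuous_map _⟩

/-- Singular `k`-cochains of `X` with values in `K`: functions on the singular `k`-simplices. -/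
def Cochain (K : Type) (k : ℕ) (X : Type u) [TopologicalSpace X] : Type u :=
  C(Simplex k, X) → K

section

variable {K : Type} [Field K] {X : Type u} {Y : Type v} [TopologicalSpace X] [TopologicalSpace Y]

/-- The singular coboundary `(δ c)(σ) = ∑ i, (-1)^i c (σ ∘ d_i)`. -/
def delta {k : ℕ} (c : Cochain K k X) : Cochain K (k + 1) X :=
  fun σ => ∑ i : Fin (k + 2), (-1 : K) ^ (i : ℕ) * c (σ.comp (face k i))

/-- Two `k`-cochains are cohomologous when they differ by the coboundary of a `(k-1)`-cochain
(when they are equal, for `k = 0`). -/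
def Cohomologous : (k : ℕ) → Cochain K k X → Cochain K k X → Prop
  | 0, c, c' => c = c'
  | k + 1, c, c' => ∃ b : Cochain K k X, ∀ σ, c σ - c' σ = delta b σ

end

/-- Singular `k`-cocycles. -/
def Cocycle (K : Type) [Field K] (k : ℕ) (X : Type u) [TopologicalSpace X] : Type u :=
  {c : Cochain K k X // ∀ σ, delta c σ = 0}

/-- Singular cohomology `H^k(X; K)`: the classes of cohomologous singular cocycles. -/
def Coh (K : Type) [Field K] (k : ℕ) (X : Type u) [TopologicalSpace X] : Type u :=
  Quot fun c c' : Cocycle K k X => Cohomologous k c.1 c'.1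

section

variable {K : Type} [Field K] {X : Type u} {Y : Type v} [TopologicalSpace X] [TopologicalSpace Y]

/-- The pull-back of a cocycle by a continuous map. -/
def Cocycle.pull {k : ℕ} (f : C(X, Y)) (c : Cocycle K k Y) : Cocycle K k X :=
  ⟨fun σ => c.1 (f.comp σ), fun σ => c.2 (f.comp σ)⟩

theorem cohomologous_pull {k : ℕ} (f : C(X, Y)) (c c' : Cocycle K k Y)
    (h : Cohomologous k c.1 c'.1) : Cohomologous k (c.pull f).1 (c'.pull f).1 := by
  cases k with
  | zero =>
    have h' : c.1 = c'.1 := h
    change (fun σ => c.1 (f.comp σ)) = fun σ => c'.1 (f.comp σ)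
    rw [h']
  | succ k =>
    obtain ⟨b, hb⟩ := h
    exact ⟨fun σ => b (f.comp σ), fun σ => hb (f.comp σ)⟩

/-- The map `f^* : H^k(Y; K) → H^k(X; K)` induced by a continuous map `f : X → Y`. -/
def Coh.map {k : ℕ} (f : C(X, Y)) : Coh K k Y → Coh K k X :=
  Quot.map (Cocycle.pull f) (cohomologous_pull f)

end

/-! ## Quaternionic geometry -/

/-- The compact symplectic group `Sp(m)`: quaternionic `m × m` matrices `A` with
`A^* A = A A^* = 1`. -/
abbrev Sp (m : ℕ) : Type := unitary (Matrix (Fin m) (Fin m) ℍ[ℝ])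

/-- The unit sphere `S^{4m-1}` of `ℍ^m`. -/
def QSphere (m : ℕ) : Type := {x : Fin m → ℍ[ℝ] // ∑ a, ‖x a‖ ^ 2 = 1}

instance (m : ℕ) : TopologicalSpace (QSphere m) := instTopologicalSpaceSubtype

theorem sum_norm_sq_eq {m : ℕ} (x : Fin m → ℍ[ℝ]) :
    ((∑ a, ‖x a‖ ^ 2 : ℝ) : ℍ[ℝ]) = star x ⬝ᵥ x := by
  simp only [dotProduct, Pi.star_apply]
  change algebraMap ℝ ℍ[ℝ] (∑ a, ‖x a‖ ^ 2) = _
  rw [map_sum]
  refine Finset.sum_congr rfl fun a _ => ?_
  rw [Quaternion.star_mul_self, Quaternion.normSq_eq_norm_mul_self, sq]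
  rfl

theorem sp_norm {m : ℕ} (A : Sp m) (x : Fin m → ℍ[ℝ]) :
    ∑ a, ‖(A.1.mulVec x) a‖ ^ 2 = ∑ a, ‖x a‖ ^ 2 := by
  have h : ((∑ a, ‖(A.1.mulVec x) a‖ ^ 2 : ℝ) : ℍ[ℝ]) = ((∑ a, ‖x a‖ ^ 2 : ℝ) : ℍ[ℝ]) := by
    rw [sum_norm_sq_eq, sum_norm_sq_eq, Matrix.star_mulVec, Matrix.dotProduct_mulVec,
      Matrix.vecMul_vecMul]
    have h1 : A.1.conjTranspose * A.1 = 1 := Unitary.coe_star_mul_self A
    rw [h1, Matrix.vecMul_one]
  exact Quaternion.coe_injective h

/-- The action of a matrix of `Sp(m)` on the sphere by left multiplication. -/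
def act {m : ℕ} (A : Sp m) (x : QSphere m) : QSphere m :=
  ⟨A.1.mulVec x.1, (sp_norm A x.1).trans x.2⟩

/-- `Sp(m)` acts on the unit sphere of `ℍ^m` by left matrix multiplication. -/
instance spAction (m : ℕ) : MulAction (Sp m) (QSphere m) where
  smul := act
  one_smul x := Subtype.ext (Matrix.one_mulVec x.1)
  mul_smul A B x := Subtype.ext (Matrix.mulVec_mulVec x.1 A.1 B.1).symm

section

variable {m : ℕ} (G : Subgroup (Sp m))

/-- The subgroup `G` as a group in its own right. -/
def Grp : Type := G

instance : Group (Grp G) := Subgroup.toGroup G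

instance : MulAction (Grp G) (QSphere m) := Subgroup.instMulAction

/-- The Lie algebra of a closed subgroup `G` of `Sp(m)`: the real span of the matrices `ξ` with
`exp (t ξ) ∈ G` for all real `t` (for closed `G` these matrices form a real vector space). -/
def lieAlg : Submodule ℝ (Matrix (Fin m) (Fin m) ℍ[ℝ]) :=
  Submodule.span ℝ {ξ | ∀ t : ℝ, ∃ g ∈ G, NormedSpace.exp (t • ξ) = (g : Sp m).1}

/-- The hyperKähler moment map `⟨μ(x), ξ⟩ = (1/2) x^* ξ x` of `ℍ^m`. -/
def moment (x : Fin m → ℍ[ℝ]) (ξ : Matrix (Fin m) (Fin m) ℍ[ℝ]) : ℍ[ℝ] :=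
  (1 / 2 : ℝ) • (star x ⬝ᵥ ξ.mulVec x)

/-- The zero level `N = μ⁻¹(0) ∩ S^{4m-1}` of the 3-Sasakian moment map of `G`. -/
def ZeroLevel : Type := {x : QSphere m // ∀ ξ ∈ lieAlg G, moment x.1 ξ = 0}

instance : TopologicalSpace (ZeroLevel G) := instTopologicalSpaceSubtype

/-- Two points of `N` are equivalent when they lie in the same `G`-orbit. -/
instance sameOrbit : Setoid (ZeroLevel G) := (MulAction.orbitRel (Grp G) (QSphere m)).comap Subtype.val

/-- The 3-Sasakian reduction `S^{4m-1} /// G = N / G`. -/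
def Reduction : Type := Quotient (sameOrbit G)

/-- The quotient topology on `N / G`. -/
instance : TopologicalSpace (Reduction G) := instTopologicalSpaceQuotient

/-- The dimension of `G`, that is, of its Lie algebra. -/
def dimG : ℕ := Module.finrank ℝ (lieAlg G)

/-! ## The Borel construction and the Kirwan map -/

variable (E : Type u) [TopologicalSpace E] [MulAction (Grp G) E]

/-- `E ×_G S^{4m-1}`: the quotient of `E × S^{4m-1}` by the diagonal action of `G`. -/
def BorelSphere : Type u := Quotient (MulAction.orbitRel (Grp G) (E × QSphere m))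

instance : TopologicalSpace (BorelSphere G E) := instTopologicalSpaceQuotient

/-- Two points of `E × N` are equivalent when they lie in the same orbit of the diagonal action. -/
instance sameOrbitBorel : Setoid (E × ZeroLevel G) :=
  (MulAction.orbitRel (Grp G) (E × QSphere m)).comap (Prod.map id Subtype.val)

/-- `E ×_G N`: the quotient of `E × N` by the diagonal action of `G`. -/
def BorelZero : Type u := Quotient (sameOrbitBorel G E)

instance : TopologicalSpace (BorelZero G E) := instTopologicalSpaceQuotient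

theorem continuous_incl : Continuous (Quotient.map (Prod.map id Subtype.val) (fun _ _ h => h) :
    BorelZero G E → BorelSphere G E) :=
  (continuous_id.prodMap continuous_subtype_val).quotient_map' (fun _ _ h => h)

omit [TopologicalSpace E] in
theorem proj_rel (a b : E × ZeroLevel G) (h : a ≈ b) : a.2 ≈ b.2 := by
  obtain ⟨g, hg⟩ := h
  exact ⟨g, congrArg Prod.snd hg⟩

theorem continuous_proj : Continuous (Quotient.map Prod.snd (proj_rel G E) :
    BorelZero G E → Reduction G) :=
  continuous_snd.quotient_map' (proj_rel G E)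

/-- The inclusion `E ×_G N → E ×_G S^{4m-1}`. -/
def borelIncl : C(BorelZero G E, BorelSphere G E) :=
  ⟨Quotient.map (Prod.map id Subtype.val) (fun _ _ h => h), continuous_incl G E⟩

/-- The projection `E ×_G N → N / G`. -/
def borelProj : C(BorelZero G E, Reduction G) :=
  ⟨Quotient.map Prod.snd (proj_rel G E), continuous_proj G E⟩

/-- The 3-Sasakian Kirwan map computed with the `G`-space `E` (a model of `EG`) is onto in
degree `k`: for every class `c ∈ H^k(N/G; K)` there is a class `a ∈ H^k(E ×_G S; K)` whose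
restriction to `E ×_G N` is the pull-back of `c`. -/
def KirwanOnto (K : Type) [Field K] (k : ℕ) : Prop :=
  ∀ c : Coh K k (Reduction G), ∃ a : Coh K k (BorelSphere G E),
    a.map (borelIncl G E) = c.map (borelProj G E)

end

/-- The group `Sp(1)` of unit quaternions, embedded in `Sp(m)` as the scalar matrices `q · 1`. -/
def diagSp (m : ℕ) : Subgroup (Sp m) where
  carrier := {A | ∃ q : ℍ[ℝ], A.1 = Matrix.diagonal fun _ => q}
  mul_mem' := by
    rintro A B ⟨p, hp⟩ ⟨q, hq⟩
    exact ⟨p * q, by rw [Submonoid.coe_mul, hp, hq, Matrix.diagonal_mul_diagonal]⟩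
  one_mem' := ⟨1, Matrix.diagonal_one.symm⟩
  inv_mem' := by
    rintro A ⟨p, hp⟩
    refine ⟨star p, ?_⟩
    have h1 : (A⁻¹ : Sp m).1 = star A.1 := rfl
    rw [h1, hp, Matrix.star_eq_conjTranspose, Matrix.diagonal_conjTranspose]
    rfl

end Pool.Agent.Work.MP_9a67bd_gt.Official
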