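import Mathlib
import Pool.Agent.Work.MP_9a67bd_gt.Main
import Pool.Agent.Work.MP_9a67bd_gt.Connected
import Pool.Agent.Work.MP_9a67bd_gt.Official

/-!
# Transfer to the definitions of `Official.lean`
-/

open scoped Quaternion

noncomputable section

namespace Pool.Agent.Work.MP_9a67bd_gt

universe u v

theorem core_cochain (K : Type) [Field K] [CharZero K] {E : Type u} [TopologicalSpace E]
    [MulAction (diagSp 6) E] (e₀ : E) (α : Cochain K 2 (BorelSphere (diagSp 6) E))
    (hα : ∀ ρ, coboundary K 2 _ α ρ = 0) (β : Cochain K 1 (BorelZero (diagSp 6) E))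
    (hβ : ∀ σ, α ((borelIncl (diagSp 6) E).comp σ) - cK K ((borelProj (diagSp 6) E).comp σ)
      = coboundary K 1 _ β σ) : False := by
  have h3 := hβ (Fs e₀ true)
  have h4 := hβ (Fs e₀ false)
  rw [coboundary_Fs] at h3
  have h5 : α ((borelIncl (diagSp 6) E).comp (Fs e₀ true))
      = α ((borelIncl (diagSp 6) E).comp (Fs e₀ false)) :=
    cocycle_Fs K e₀ α (funext hα)
  rw [← h4, h5] at h3
  have h6 : cK K ((borelProj (diagSp 6) E).comp (Fs e₀ true))
      = cK K ((borelProj (diagSp 6) E).comp (Fs e₀ false)) := sub_right_injective h3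
  have h7 : (chern (lsimp true) : K) = (chern (lsimp false) : K) := h6
  have h8 : chern (lsimp true) = chern (lsimp false) := by exact_mod_cast h7
  exact chern_ne (sub_eq_zero.2 h8)

theorem diagSp_eq (m : ℕ) : Official.diagSp m = diagSp m := rfl

/-- cohomologous is an equivalence relation -/
theorem cohomologous_equiv {K : Type} [Field K] {X : Type u} [TopologicalSpace X] (k : ℕ) :
    Equivalence fun c c' : Official.Cocycle K k X => Official.Cohomologous k c.1 c'.1 := by
  cases k with
  | zero =>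
    exact ⟨fun _ => rfl, fun h => h.symm, fun h h' => h.trans h'⟩
  | succ k =>
    refine ⟨fun c => ⟨fun _ => 0, fun σ => ?_⟩, ?_, ?_⟩
    · unfold Official.delta
      simp
    · rintro c c' ⟨b, hb⟩
      refine ⟨fun σ => - b σ, fun σ => ?_⟩
      have h := hb σ
      unfold Official.delta at h ⊢
      simp only [mul_neg, Finset.sum_neg_distrib]
      rw [← h]
      ring
    · rintro c c' c'' ⟨b, hb⟩ ⟨b', hb'⟩
      refine ⟨fun σ => b σ + b' σ, fun σ => ?_⟩
      have h := hb σ
      have h' := hb' σ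
      unfold Official.delta at h h' ⊢
      simp only [mul_add, Finset.sum_add_distrib]
      rw [← h, ← h']
      ring

theorem coh_exact {K : Type} [Field K] {X : Type u} [TopologicalSpace X] {k : ℕ}
    {c c' : Official.Cocycle K k X} (h : (Quot.mk _ c : Official.Coh K k X) = Quot.mk _ c') :
    Official.Cohomologous k c.1 c'.1 :=
  ((cohomologous_equiv k).eqvGen_iff).1 (Quot.eqvGen_exact h)

theorem official_not_onto (K : Type) [Field K] [CharZero K] (E : Type u) [TopologicalSpace E]
    [inst : MulAction (Official.Grp (Official.diagSp 6)) E] [Nonempty E] :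
    ¬ Official.KirwanOnto (Official.diagSp 6) E K 2 := by
  intro hK
  obtain ⟨e₀⟩ := ‹Nonempty E›
  let _ : MulAction (diagSp 6) E := inst
  have hc : ∀ ρ, coboundary K 2 _ (cK K) ρ = 0 := fun ρ => congrFun (cK_mem K) ρ
  obtain ⟨a, ha⟩ := hK (Quot.mk _ ⟨cK K, hc⟩)
  obtain ⟨α, rfl⟩ := Quot.exists_rep a
  obtain ⟨β, hβ⟩ := coh_exact ha
  exact core_cochain K e₀ α.1 α.2 β hβ

end Pool.Agent.Work.MP_9a67bd_gt
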